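import Pool.Agent.H567R3.ZS.Pm

set_option autoImplicit false
set_option linter.deprecated false

namespace Pool.Agent.H567R3.ZS

open SimpleGraph Pool.Agent.Helper96.TwoFactor

variable {V : Type} {H : SimpleGraph V} {t : V → ℕ} {fr : (Σ v, Fin (t v)) → Prop}

/-- the factor given by a perfect matching of the gadget graph -/
def Fac (M : Subgraph (gad H t fr)) : SimpleGraph V where
  Adj u v := ∃ h : H.Adj u v, M.Adj (.inl (.inl ⟨(u, v), h⟩)) (.inl (.inl ⟨(v, u), h.symm⟩))
  symm := ⟨fun _ _ ⟨h, hm⟩ => ⟨h.symm, hm.symm⟩⟩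
  loopless := ⟨fun _ ⟨h, _⟩ => h.ne rfl⟩

/-- the number of half edges at `v` which are in the factor -/
noncomputable def outM (M : Subgraph (gad H t fr)) (v : V) : ℕ :=
  {i : Fin (t v) | ¬ ∃ c, M.Adj (.inl (.inr ⟨v, i⟩)) (.inr c)}.ncard

theorem fac_deg [Finite V] (hdeg : ∀ v, (H.neighborSet v).ncard + t v = 5)
    (M : Subgraph (gad H t fr)) (hM : M.IsPerfectMatching) (v : V) :
    ((Fac M).neighborSet v).ncard + outM M v = 2 := by
  classical
  have := Fintype.ofFinite V
  have hM' := Subgraph.isPerfectMatching_iff.1 hM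
  set A : Set H.Dart := {d | d.fst = v ∧ ∃ c, M.Adj (.inl (.inl d)) (.inr c)} with hA
  set A' : Set H.Dart := {d | d.fst = v ∧ ¬ ∃ c, M.Adj (.inl (.inl d)) (.inr c)} with hA'
  set B : Set (Fin (t v)) := {i | ∃ c, M.Adj (.inl (.inr ⟨v, i⟩)) (.inr c)} with hB
  -- all darts at `v`
  have e1 : A.ncard + A'.ncard = (H.neighborSet v).ncard := by
    have h1 : A ∪ A' = {d : H.Dart | d.fst = v} := by
      ext d
      simp only [hA, hA', Set.mem_union, Set.mem_setOf_eq]
      tauto
    have h2 : Disjoint A A' := by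
      rw [Set.disjoint_left]
      rintro d ⟨_, h⟩ ⟨_, h'⟩
      exact h' h
    rw [← Set.ncard_union_eq h2, h1]
    have h3 : (fun d : H.Dart => d.snd) '' {d : H.Dart | d.fst = v} = H.neighborSet v := by
      ext w
      constructor
      · rintro ⟨d, hd, rfl⟩
        have hd' : d.fst = v := hd
        rw [mem_neighborSet, ← hd']
        exact d.adj
      · intro hw
        exact ⟨⟨(v, w), hw⟩, rfl, rfl⟩
    rw [← h3, Set.ncard_image_of_injOn]
    intro d hd e he h
    have hd' : d.fst = v := hd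
    have he' : e.fst = v := he
    exact Dart.ext _ _ (Prod.ext (hd'.trans he'.symm) h)
  have e2 : B.ncard + outM M v = t v := by
    have h1 : {i : Fin (t v) | ¬ ∃ c, M.Adj (.inl (.inr ⟨v, i⟩)) (.inr c)} = Bᶜ := rfl
    unfold outM
    rw [h1, Set.ncard_add_ncard_compl, Nat.card_eq_fintype_card, Fintype.card_fin]
  -- the cores
  have hcore : ∀ j : Fin 3, ∃ p : Port H t, M.Adj (.inl p) (.inr (v, j)) := by
    intro j
    obtain ⟨w, hw, -⟩ := hM' (.inr (v, j))
    rcases w with p | c
    · exact ⟨p, hw.symm⟩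
    · exact absurd hw.adj_sub (by simp)
  choose g hg using hcore
  have hginj : Function.Injective g := by
    intro i j hij
    have h1 := hg i
    rw [hij] at h1
    have h2 := (hM' (.inl (g j))).unique h1 (hg j)
    have h3 := Sum.inr.inj h2
    exact congrArg Prod.snd h3
  have e3 : A.ncard + B.ncard = 3 := by
    have h1 : Set.range g = Sum.inl '' A ∪ (fun i : Fin (t v) => (Sum.inr ⟨v, i⟩ : Port H t)) '' B := by
      ext p
      constructor
      · rintro ⟨j, rfl⟩
        have h2 := hg j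
        have h3 := h2.adj_sub
        rcases hgj : g j with d | ⟨w, i⟩
        · rw [hgj] at h2 h3
          left
          rw [gad_dc] at h3
          exact ⟨d, ⟨h3, _, h2⟩, rfl⟩
        · rw [hgj] at h2 h3
          right
          rw [gad_qc] at h3
          have h4 : w = v := h3.1
          subst h4
          exact ⟨i, ⟨_, h2⟩, rfl⟩
      · rintro (⟨d, ⟨hd, c, hc⟩, rfl⟩ | ⟨i, ⟨c, hc⟩, rfl⟩)
        · have h2 := hc.adj_sub
          rw [gad_dc] at h2
          obtain ⟨w, j⟩ := c
          have h3 : w = v := h2.symm.trans hd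
          subst h3
          refine ⟨j, ?_⟩
          have h4 := (hM' (.inr (w, j))).unique (hg j).symm hc.symm
          exact Sum.inl.inj h4
        · have h2 := hc.adj_sub
          rw [gad_qc] at h2
          obtain ⟨w, j⟩ := c
          have h3 : v = w := h2.1
          subst h3
          refine ⟨j, ?_⟩
          have h4 := (hM' (.inr (v, j))).unique (hg j).symm hc.symm
          exact Sum.inl.inj h4
    have h2 : (Set.range g).ncard = 3 := by
      rw [← Set.image_univ, Set.ncard_image_of_injective _ hginj, Set.ncard_univ,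
        Nat.card_eq_fintype_card, Fintype.card_fin]
    have hi : Function.Injective (fun i : Fin (t v) => (Sum.inr ⟨v, i⟩ : Port H t)) := by
      intro i j h
      have h3 := Sum.inr.inj h
      rw [Sigma.mk.injEq] at h3
      exact eq_of_heq h3.2
    rw [h1, Set.ncard_union_eq, Set.ncard_image_of_injective _ Sum.inl_injective,
      Set.ncard_image_of_injective _ hi] at h2
    · exact h2
    · rw [Set.disjoint_left]
      rintro _ ⟨a, _, rfl⟩ ⟨b, _, hb⟩
      simp at hb
  have e4 : ((Fac M).neighborSet v).ncard = A'.ncard := by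
    have h3 : (fun d : H.Dart => d.snd) '' A' = (Fac M).neighborSet v := by
      ext w
      constructor
      · rintro ⟨d, ⟨hd, hd2⟩, rfl⟩
        subst hd
        rw [mem_neighborSet]
        refine ⟨d.adj, ?_⟩
        obtain ⟨w, hw, -⟩ := hM' (.inl (.inl d))
        rcases w with (e | q) | c
        · have h4 := hw.adj_sub
          rw [gad_dd] at h4
          subst h4
          exact hw
        · exact absurd hw.adj_sub (by simp)
        · exact absurd ⟨c, hw⟩ hd2
      · rintro ⟨h, hm⟩
        refine ⟨⟨(v, w), h⟩, ⟨rfl, ?_⟩, rfl⟩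
        rintro ⟨c, hc⟩
        have h4 := (hM' _).unique hc hm
        simp at h4
    rw [← h3, Set.ncard_image_of_injOn]
    intro d hd e he h
    have hd' : d.fst = v := hd.1
    have he' : e.fst = v := he.1
    exact Dart.ext _ _ (Prod.ext (hd'.trans he'.symm) h)
  have := hdeg v
  omega

/-- **The factor.**  `H` bridgeless, `deg v + t v = 5`; at most one forced half edge. -/
theorem exists_factor [Finite V]
    (hdeg : ∀ v, (H.neighborSet v).ncard + t v = 5)
    (hbr : ∀ u v, H.Adj u v → ¬ H.IsBridge s(u, v))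
    (x : Option V)
    (hx : ∀ v, x = some v → 1 ≤ t v ∧ (2 ≤ t v ∨ ∃ w, w ≠ v ∧ H.Reachable v w ∧ 1 ≤ t w)) :
    ∃ (F : SimpleGraph V) (out : V → ℕ), F ≤ H ∧ (∀ v, out v ≤ t v) ∧
      (∀ v, (F.neighborSet v).ncard + out v = 2) ∧ ∀ v, x = some v → 1 ≤ out v := by
  classical
  set fr : (Σ v, Fin (t v)) → Prop := fun q => x = some q.1 ∧ q.2.val = 0 with hfr
  obtain ⟨M, hM⟩ := exists_pm (H := H) (t := t) (fr := fr) hdeg hbr (by
    rintro ⟨v, i⟩ ⟨w, j⟩ ⟨h1, h2⟩ ⟨h3, h4⟩
    simp only at h1 h2 h3 h4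
    have : v = w := Option.some.inj (h1.symm.trans h3)
    subst this
    congr 1
    exact Fin.ext (h2.trans h4.symm)) (by
    rintro ⟨v, i⟩ ⟨h1, h2⟩
    exact (hx v h1).2)
  refine ⟨Fac M, outM M, fun u v h => h.1, ?_, fac_deg hdeg M hM, ?_⟩
  · intro v
    unfold outM
    have h1 := Set.ncard_le_ncard (Set.subset_univ
      {i : Fin (t v) | ¬ ∃ c, M.Adj (.inl (.inr ⟨v, i⟩)) (.inr c)}) (Set.toFinite _)
    rwa [Set.ncard_univ, Nat.card_eq_fintype_card, Fintype.card_fin] at h1
  · intro v hv
    have h1 := (hx v hv).1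
    unfold outM
    rw [Nat.one_le_iff_ne_zero, Ne, Set.ncard_eq_zero (Set.toFinite _)]
    intro h2
    have h3 : (⟨0, h1⟩ : Fin (t v)) ∈
        {i : Fin (t v) | ¬ ∃ c, M.Adj (.inl (.inr ⟨v, i⟩)) (.inr c)} := by
      rintro ⟨c, hc⟩
      have h4 := hc.adj_sub
      rw [gad_qc] at h4
      exact h4.2 ⟨hv, rfl⟩
    rw [h2] at h3
    exact h3

end Pool.Agent.H567R3.ZS
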