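import Pool.Agent.H567R3.ZS.Odd
import Pool.Agent.H567R3.ZS.Factor

set_option autoImplicit false
set_option linter.deprecated false

namespace Pool.Agent.H567R3.ZS

open SimpleGraph

variable {V : Type} {H : SimpleGraph V}

/-- the sums of `n` elements of `{2, -2, 4, -4}` -/
def HS : ℕ → ℤ → Prop
  | 0, s => s = 0
  | n + 1, s => ∃ d : ℤ, (d = 2 ∨ d = -2 ∨ d = 4 ∨ d = -4) ∧ HS n (s - d)

theorem HS.neg {n : ℕ} : ∀ {s : ℤ}, HS n s → HS n (-s) := by
  induction n with
  | zero => intro s h; unfold HS at h ⊢; omega
  | succ n ih =>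
    rintro s ⟨d, hd, h⟩
    refine ⟨-d, by omega, ?_⟩
    have := ih h
    convert this using 1
    ring

theorem HS.all (n : ℕ) : HS n (-2 * (n : ℤ)) := by
  induction n with
  | zero => unfold HS; simp
  | succ n ih =>
    refine ⟨-2, by omega, ?_⟩
    convert ih using 1
    push_cast
    ring

theorem HS.one (n : ℕ) {d : ℤ} (hd : d = 2 ∨ d = -2 ∨ d = 4 ∨ d = -4) :
    HS (n + 1) (-2 * (n : ℤ) + d) := by
  refine ⟨d, hd, ?_⟩
  convert HS.all n using 1
  ring

theorem HS.two (n : ℕ) : HS (n + 2) (-2 * (n : ℤ) + 6) := by
  refine ⟨2, by omega, ?_⟩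
  convert HS.one n (d := 4) (by omega) using 1
  ring

/-- the local condition at `v` -/
def Good [Fintype V] (H : SimpleGraph V) (t : V → ℕ) (c : V → ℤ) (v : V) (g : V → ℤ) : Prop :=
  (∀ b, H.Adj v b → g b ≠ 0 ∧ |g b| < 5) ∧ ∃ s, HS (t v) s ∧ (∑ w, g w) + s + c v = 0

theorem base_f [Fintype V] {t' : V → ℕ} (hdeg : ∀ v, (H.neighborSet v).ncard + t' v = 5)
    {F : SimpleGraph V} (hF : F ≤ H) {out : V → ℕ}
    (hout : ∀ v, (F.neighborSet v).ncard + out v = 2) {h : V → V → ℤ} (hh : IsW H h)
    (habs : ∀ a b, |h a b| ≤ 1) :
    ∃ f, IsW H f ∧ (∀ a b, H.Adj a b → f a b ≠ 0 ∧ |f a b| < 5) ∧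
      ∀ v, ∑ b, f v b = 2 * (t' v : ℤ) - 5 * (out v : ℤ) + ∑ b, h v b := by
  classical
  refine ⟨fun a b => (if H.Adj a b then -2 else 0) + (if F.Adj a b then 5 else 0) + h a b,
    ⟨?_, ?_⟩, ?_, ?_⟩
  · intro a b
    simp only [H.adj_comm a b, F.adj_comm a b]
    rw [hh.symm]
  · intro a b hab
    try simp only
    rw [if_neg hab, if_neg (fun h => hab (hF h)), hh.supp a b hab]
    simp
  · intro a b hab
    try simp only
    rw [if_pos hab]
    have h1 := habs a b
    rw [abs_le] at h1
    rw [abs_lt]
    split_ifs
    · constructor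
      · omega
      · omega
    · constructor
      · omega
      · omega
  · intro v
    try simp only
    rw [Finset.sum_add_distrib, Finset.sum_add_distrib, ← Finset.sum_filter, ← Finset.sum_filter,
      Finset.sum_const, Finset.sum_const]
    have h1 : (Finset.univ.filter fun b => H.Adj v b).card = (H.neighborSet v).ncard := by
      rw [← Set.ncard_coe_finset]
      congr 1
      ext b
      simp
    have h2 : (Finset.univ.filter fun b => F.Adj v b).card = (F.neighborSet v).ncard := by
      rw [← Set.ncard_coe_finset]
      congr 1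
      ext b
      simp
    rw [h1, h2]
    have h3 := hdeg v
    have h4 := hout v
    simp only [nsmul_eq_mul]
    have h5 : ((H.neighborSet v).ncard : ℤ) = 5 - t' v := by omega
    have h6 : ((F.neighborSet v).ncard : ℤ) = 2 - out v := by omega
    rw [h5, h6]
    ring

theorem parity_X [Fintype V] {F : SimpleGraph V} (hF : F ≤ H) {out : V → ℕ}
    (hout : ∀ v, (F.neighborSet v).ncard + out v = 2) (v : V) :
    Even (cX H {w | out w = 1} v) := by
  classical
  let K : SimpleGraph V :=
    { Adj := fun a b => F.Adj a b ∧ H.Reachable v a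
      symm := ⟨fun a b ⟨h1, h2⟩ => ⟨h1.symm, h2.trans (hF h1).reachable⟩⟩
      loopless := ⟨fun a ⟨h1, _⟩ => h1.ne rfl⟩ }
  have h1 := K.even_card_odd_degree_vertices
  have h2 : cX H {w | out w = 1} v = (Finset.univ.filter fun w => Odd (K.degree w)).card := by
    unfold cX
    rw [← Set.ncard_coe_finset]
    congr 1
    ext w
    simp only [Set.mem_setOf_eq, Finset.coe_filter, Finset.mem_univ, true_and]
    have hd : K.degree w = (K.neighborSet w).ncard := by
      rw [← card_neighborFinset_eq_degree, ← Set.ncard_coe_finset, coe_neighborFinset]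
    rw [hd]
    by_cases hr : H.Reachable v w
    · have h3 : K.neighborSet w = F.neighborSet w := by
        ext b
        simp only [mem_neighborSet, K]
        tauto
      rw [h3]
      have h4 := hout w
      rw [Nat.odd_iff]
      constructor
      · rintro ⟨_, h5⟩; omega
      · intro h5; exact ⟨hr, by omega⟩
    · have h3 : K.neighborSet w = ∅ := by
        ext b
        simp only [mem_neighborSet, K, Set.mem_empty_iff_false]
        tauto
      rw [h3, Set.ncard_empty]
      constructor
      · rintro ⟨h4, _⟩; exact absurd h4 hr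
      · intro h; exact absurd h (by decide)
  rw [h2]
  convert h1

/-- a vertex without a root -/
theorem need_ok {t' out : ℕ} (h1 : out ≤ t') (h2 : out ≤ 2) {σ : ℤ}
    (h0 : out ≠ 1 → σ = 0) (hσ : out = 1 → σ = 1 ∨ σ = -1) :
    HS t' (-(2 * (t' : ℤ) - 5 * (out : ℤ) + σ)) := by
  have h3 : out = 0 ∨ out = 1 ∨ out = 2 := by omega
  rcases h3 with rfl | rfl | rfl
  · rw [h0 (by omega)]
    convert HS.all t' using 1
    push_cast
    ring
  · obtain ⟨n, rfl⟩ : ∃ n, t' = n + 1 := ⟨t' - 1, by omega⟩
    rcases hσ rfl with h | h
    · rw [h]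
      convert HS.one n (d := 2) (by omega) using 1
      push_cast
      ring
    · rw [h]
      convert HS.one n (d := 4) (by omega) using 1
      push_cast
      ring
  · obtain ⟨n, rfl⟩ : ∃ n, t' = n + 2 := ⟨t' - 2, by omega⟩
    rw [h0 (by omega)]
    convert HS.two n using 1
    push_cast
    ring

/-- **The bridgeless case.** -/
theorem base [Fintype V] (hbr : ∀ u v, H.Adj u v → ¬ H.IsBridge s(u, v)) {t : V → ℕ} {c : V → ℤ}
    (hdeg : ∀ v, (H.neighborSet v).ncard + (t v + (if c v = 0 then 0 else 1)) = 5)
    (hc : ∀ v, c v ≠ 0 → c v = 2 ∨ c v = -2 ∨ c v = 4 ∨ c v = -4)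
    (huniq : ∀ u v, c u ≠ 0 → c v ≠ 0 → H.Reachable u v → u = v) :
    ∃ f, IsW H f ∧ ∀ v, Good H t c v (f v) := by
  classical
  apply exists_glue (Good H t c)
  intro v0
  by_cases hroot : ∃ x, H.Reachable v0 x ∧ c x ≠ 0
  · obtain ⟨x, hx1, hx2⟩ := hroot
    have hother : ∀ w, H.Reachable v0 w → w ≠ x → c w = 0 := by
      intro w hw hne
      by_contra hcw
      exact hne (huniq w x hcw hx2 (hw.symm.trans hx1))
    have hcx := hc x hx2
    -- it is enough to have root value `± c x`
    suffices hs : ∃ (r : ℤ) (f : V → V → ℤ), (r = c x ∨ r = - c x) ∧ IsW H f ∧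
        ∀ w, H.Reachable v0 w → Good H t (fun z => if z = x then r else 0) w (f w) by
      obtain ⟨r, f, hr, hf, hg⟩ := hs
      rcases hr with rfl | rfl
      · refine ⟨f, hf, fun w hw => ?_⟩
        obtain ⟨h1, s, h2, h3⟩ := hg w hw
        beta_reduce at h3
        refine ⟨h1, s, h2, ?_⟩
        by_cases hwx : w = x
        · subst hwx
          simpa using h3
        · rw [if_neg hwx] at h3
          rw [hother w hw hwx]
          exact h3
      · refine ⟨fun a b => - f a b, ⟨fun a b => by rw [hf.symm], fun a b hab => by
          rw [hf.supp a b hab]; simp⟩, fun w hw => ?_⟩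
        obtain ⟨h1, s, h2, h3⟩ := hg w hw
        beta_reduce at h3
        refine ⟨fun b hb => ?_, -s, h2.neg, ?_⟩
        · have := h1 b hb
          rw [abs_neg]
          exact ⟨neg_ne_zero.2 this.1, this.2⟩
        · rw [Finset.sum_neg_distrib]
          by_cases hwx : w = x
          · subst hwx
            rw [if_pos rfl] at h3
            linarith
          · rw [if_neg hwx] at h3
            rw [hother w hw hwx]
            linarith
    by_cases hsp : 1 ≤ t x ∨ ∃ w, w ≠ x ∧ H.Reachable x w ∧ 1 ≤ t w + (if c w = 0 then 0 else 1)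
    · -- a second half edge in the component
      obtain ⟨F, out, hF, ho1, ho2, ho3⟩ := exists_factor
        (t := fun v => t v + (if c v = 0 then 0 else 1)) hdeg hbr (some x) (by
        intro v hv
        have hv' : x = v := Option.some.inj hv
        subst hv'
        try simp only
        rw [if_neg hx2]
        refine ⟨by omega, ?_⟩
        rcases hsp with h | h
        · left; omega
        · right; exact h)
      have hox : 1 ≤ out x := ho3 x rfl
      obtain ⟨h, hh1, hh2, hh3⟩ := exists_tj (H.edgeSet.ncard + 1) H (Nat.lt_succ_self _)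
        {w | out w = 1} (parity_X hF ho2)
      -- the right sign
      obtain ⟨h, hh1, hh2, hh3, hh4⟩ : ∃ h : V → V → ℤ, IsW H h ∧ (∀ a b, |h a b| ≤ 1) ∧
          (∀ v, (out v ≠ 1 → ∑ w, h v w = 0) ∧ (out v = 1 → ∑ w, h v w = 1 ∨ ∑ w, h v w = -1)) ∧
          (out x = 1 → ∑ w, h x w = 3 - |c x|) := by
        by_cases hgood : out x = 1 → ∑ w, h x w = 3 - |c x|
        · exact ⟨h, hh1, hh2, hh3, hgood⟩
        · refine ⟨fun a b => - h a b, ⟨fun a b => by rw [hh1.symm], fun a b hab => by
            rw [hh1.supp a b hab]; simp⟩, fun a b => by rw [abs_neg]; exact hh2 a b, ?_, ?_⟩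
          · intro v
            rw [Finset.sum_neg_distrib]
            refine ⟨fun hv => ?_, fun hv => ?_⟩
            · rw [(hh3 v).1 hv]; simp
            · rcases (hh3 v).2 hv with h | h <;> rw [h] <;> simp
          · intro hx
            rw [Finset.sum_neg_distrib]
            push Not at hgood
            have h1 := hgood.2
            rcases (hh3 x).2 hx with h | h <;> rw [h] at h1 ⊢ <;>
              rcases hcx with h2 | h2 | h2 | h2 <;> rw [h2] at h1 ⊢ <;>
                first | (exfalso; apply h1; norm_num; done) | norm_num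
      obtain ⟨f, hf1, hf2, hf3⟩ := base_f hdeg hF ho2 hh1 hh2
      refine ⟨|c x|, f, ?_, hf1, ?_⟩
      · rcases abs_choice (c x) with h | h <;> rw [h] <;> simp
      · intro w hw
        refine ⟨fun b hb => hf2 w b hb, ?_⟩
        rw [hf3]
        try simp only
        have hle2 : out w ≤ 2 := by have := ho2 w; omega
        by_cases hwx : w = x
        · subst hwx
          rw [if_pos rfl, if_neg hx2]
          have ho : out w = 1 ∨ out w = 2 := by omega
          rcases ho with ho | ho
          · refine ⟨_, HS.all (t w), ?_⟩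
            rw [hh4 ho, ho]
            push_cast
            ring
          · have h1 := ho1 w
            try simp only at h1
            rw [if_neg hx2] at h1
            obtain ⟨n, hn⟩ : ∃ n, t w = n + 1 := ⟨t w - 1, by omega⟩
            rw [hn]
            refine ⟨_, HS.one n (d := 6 - |c w|) ?_, ?_⟩
            · rcases hcx with h2 | h2 | h2 | h2 <;> rw [h2] <;> norm_num
            · rw [(hh3 w).1 (by omega), ho]
              push_cast
              ring
        · rw [if_neg hwx, if_pos (hother w hw hwx), add_zero]
          refine ⟨_, need_ok (t' := t w) (out := out w) ?_ hle2 (hh3 w).1 (hh3 w).2, ?_⟩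
          · have h1 := ho1 w
            try simp only at h1
            rw [if_pos (hother w hw hwx)] at h1
            exact h1
          · ring
    · -- the only half edge of the component is the root
      push Not at hsp
      obtain ⟨htx, hsp⟩ := hsp
      obtain ⟨F, out, hF, ho1, ho2, -⟩ := exists_factor
        (t := fun v => t v + (if c v = 0 then 0 else 1)) hdeg hbr none (by
        intro v hv
        exact absurd hv (by simp))
      have ht0 : ∀ w, w ≠ x → H.Reachable x w → t w + (if c w = 0 then 0 else 1) = 0 := by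
        intro w h1 h2
        have := hsp w h1 h2
        omega
      have hout0 : ∀ w, H.Reachable x w → out w = 0 := by
        have h1 : ∀ w, w ≠ x → H.Reachable x w → out w = 0 := by
          intro w h1 h2
          have h3 := ho1 w
          have h4 := ht0 w h1 h2
          omega
        intro w hw
        by_cases hwx : w = x
        · subst hwx
          have h3 := ho1 w
          try simp only at h3
          rw [if_neg hx2] at h3
          by_contra hne
          have h4 : out w = 1 := by omega
          have h5 := parity_X hF ho2 w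
          unfold cX at h5
          have h6 : {z | H.Reachable w z ∧ z ∈ {z | out z = 1}} = {w} := by
            ext z
            simp only [Set.mem_setOf_eq, Set.mem_singleton_iff]
            constructor
            · rintro ⟨h7, h8⟩
              by_contra h9
              have := h1 z h9 h7
              omega
            · rintro rfl
              exact ⟨Reachable.refl _, h4⟩
          rw [h6, Set.ncard_singleton] at h5
          exact absurd h5 (by decide)
        · exact h1 w hwx hw
      have hdx : (H.neighborSet x).ncard = 4 := by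
        have := hdeg x
        rw [if_neg hx2] at this
        omega
      obtain ⟨h, hh1, hh2, hh3, hh4⟩ : ∃ h : V → V → ℤ, IsW H h ∧ (∀ a b, |h a b| ≤ 1) ∧
          ∑ w, h x w = |c x| - 2 ∧ ∀ v, v ≠ x → ∑ w, h v w = 0 := by
        have h2 : |c x| = 2 ∨ |c x| = 4 := by
          rcases hcx with h2 | h2 | h2 | h2 <;> rw [h2] <;> norm_num
        rcases h2 with h2 | h2
        · refine ⟨fun _ _ => 0, ⟨fun _ _ => rfl, fun _ _ _ => rfl⟩, by simp, ?_, by simp⟩
          rw [h2]
          simp
        · obtain ⟨h, h3, h4, h5, h6⟩ := exists_two hbr x hdx (by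
            intro v hv hr
            have h3 := hdeg v
            have h4 := ht0 v hv hr
            omega)
          refine ⟨h, h3, h4, ?_, h6⟩
          rw [h5, h2]
          norm_num
      obtain ⟨f, hf1, hf2, hf3⟩ := base_f hdeg hF ho2 hh1 hh2
      refine ⟨-|c x|, f, ?_, hf1, ?_⟩
      · rcases abs_choice (c x) with h | h <;> rw [h] <;> simp
      · intro w hw
        refine ⟨fun b hb => hf2 w b hb, ?_⟩
        have hxw : H.Reachable x w := hx1.symm.trans hw
        rw [hf3, hout0 w hxw]
        try simp only
        by_cases hwx : w = x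
        · subst hwx
          rw [if_pos rfl, if_neg hx2]
          have h1 : t w = 0 := by omega
          rw [h1, hh3]
          refine ⟨0, rfl, ?_⟩
          push_cast
          ring
        · have h1 := ht0 w hwx hxw
          rw [h1, if_neg hwx, hh4 w hwx]
          have h2 : t w = 0 := by omega
          rw [h2]
          exact ⟨0, rfl, by simp⟩
  · push Not at hroot
    obtain ⟨F, out, hF, ho1, ho2, -⟩ := exists_factor
      (t := fun v => t v + (if c v = 0 then 0 else 1)) hdeg hbr none (by
      intro v hv
      exact absurd hv (by simp))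
    obtain ⟨h, hh1, hh2, hh3⟩ := exists_tj (H.edgeSet.ncard + 1) H (Nat.lt_succ_self _)
      {w | out w = 1} (parity_X hF ho2)
    obtain ⟨f, hf1, hf2, hf3⟩ := base_f hdeg hF ho2 hh1 hh2
    refine ⟨f, hf1, fun w hw => ⟨fun b hb => hf2 w b hb, ?_⟩⟩
    rw [hf3]
    have hle2 : out w ≤ 2 := by have := ho2 w; omega
    have hcw := hroot w hw
    have h1 := ho1 w
    try simp only at h1
    rw [if_pos hcw, add_zero] at h1
    try simp only
    rw [if_pos hcw, hcw, add_zero]
    exact ⟨_, need_ok h1 hle2 (hh3 w).1 (hh3 w).2, by ring⟩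

end Pool.Agent.H567R3.ZS
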