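import Pool.Agent.H567R3.ZS.Gamma

set_option autoImplicit false
set_option linter.deprecated false

namespace Pool.Agent.H567R3.ZS

open SimpleGraph Pool.Agent.Helper96.TwoFactor

variable {V : Type} {H : SimpleGraph V} {t : V → ℕ} {fr : (Σ v, Fin (t v)) → Prop}

open Classical in
/-- number of forced half edges at `v` -/
noncomputable def fx (t : V → ℕ) (fr : (Σ v, Fin (t v)) → Prop) (v : V) : ℕ :=
  ((Finset.univ : Finset (Fin (t v))).filter (fun i => fr ⟨v, i⟩)).card

open Classical in
/-- the weight of a vertex of the gadget graph -/
noncomputable def om (fr : (Σ v, Fin (t v)) → Prop) (S T : Set V) : GW H t → ℕ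
  | .inl (.inl d) => (if d.fst ∈ T then 12 else 0) + (if d.snd ∈ S then 8 else 0)
  | .inl (.inr _) => 0
  | .inr c => if c.1 ∈ S then 20 else 4 * fx t fr c.1

section L1

variable {U : Set (GW H t)} {S T : Set V} {Z : Set (GW H t)}

lemma two_le_sum {α : Type} [Fintype α] (P : α → Prop) [DecidablePred P] (g : α → ℕ) {a b : α}
    (hab : a ≠ b) (ha : P a) (hb : P b) : g a + g b ≤ ∑ z with P z, g z := by
  classical
  rw [← Finset.sum_pair hab]
  apply Finset.sum_le_sum_of_subset
  intro x hx
  rw [Finset.mem_insert, Finset.mem_singleton] at hx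
  rcases hx with rfl | rfl
  · simpa using ha
  · simpa using hb

/-- a walk from `D` to its complement crosses the boundary -/
lemma cross {K : SimpleGraph V} {D : Set V} {u v : V} (p : K.Walk u v) (hu : u ∈ D) (hv : v ∉ D) :
    ∃ a b, K.Adj a b ∧ a ∈ D ∧ b ∉ D := by
  induction p with
  | nil => exact absurd hu hv
  | @cons a b c h p ih =>
    by_cases hb : b ∈ D
    · exact ih hb hv
    · exact ⟨a, b, h, hu, hb⟩

lemma ncard_Y [Fintype V] [DecidableRel H.Adj] (D : Set V)
    (hdeg : ∀ v ∈ D, H.degree v = 5) :
    Even ({x : GW H t | match x with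
      | .inl (.inl d) => d.fst ∈ D
      | .inl (.inr _) => False
      | .inr c => c.1 ∈ D}).ncard := by
  classical
  have h1 : {x : GW H t | match x with
      | .inl (.inl d) => d.fst ∈ D
      | .inl (.inr _) => False
      | .inr c => c.1 ∈ D} =
      (fun d : H.Dart => (Sum.inl (Sum.inl d) : GW H t)) '' {d | d.fst ∈ D} ∪
      (fun c : V × Fin 3 => (Sum.inr c : GW H t)) '' {c | c.1 ∈ D} := by
    ext x
    rcases x with (d | q) | c
    · simp
    · simp
    · simp
  have hi : Function.Injective (fun d : H.Dart => (Sum.inl (Sum.inl d) : GW H t)) :=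
    fun a b h => Sum.inl.inj (Sum.inl.inj h)
  have hj : Function.Injective (fun c : V × Fin 3 => (Sum.inr c : GW H t)) :=
    fun a b h => Sum.inr.inj h
  rw [h1, Set.ncard_union_eq, Set.ncard_image_of_injective _ hi,
    Set.ncard_image_of_injective _ hj]
  · have h2 : {d : H.Dart | d.fst ∈ D}.ncard = 5 * D.ncard := by
      rw [Set.ncard_eq_toFinset_card', Set.ncard_eq_toFinset_card' D]
      rw [Finset.card_eq_sum_card_fiberwise (f := fun d : H.Dart => d.fst) (t := D.toFinset)]
      · rw [Finset.sum_congr rfl (g := fun _ => 5), Finset.sum_const, smul_eq_mul, mul_comm]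
        intro v hv
        have hv' : v ∈ D := by simpa using hv
        rw [← hdeg v hv', ← H.dart_fst_fiber_card_eq_degree v]
        congr 1
        ext d
        simp only [Finset.mem_filter, Set.mem_toFinset, Set.mem_setOf_eq, Finset.mem_univ, true_and]
        constructor
        · rintro ⟨_, h⟩; exact h
        · intro h; exact ⟨h ▸ hv', h⟩
      · intro d hd
        simpa using hd
    have h3 : {c : V × Fin 3 | c.1 ∈ D}.ncard = 3 * D.ncard := by
      have : {c : V × Fin 3 | c.1 ∈ D} = D ×ˢ (Set.univ : Set (Fin 3)) := by
        ext c; simp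
      rw [this, Set.ncard_prod, Set.ncard_univ, Nat.card_eq_fintype_card, Fintype.card_fin, mul_comm]
    rw [h2, h3]
    exact ⟨4 * D.ncard, by ring⟩
  · rw [Set.disjoint_left]
    rintro _ ⟨a, _, rfl⟩ ⟨b, _, hb⟩
    simp at hb

theorem weight_ge [Fintype V] [DecidableRel H.Adj] [Fintype (GW H t)]
    [DecidablePred (· ∈ Z)]
    (hdeg : ∀ v, H.degree v + t v = 5)
    (hbr : ∀ u v, H.Adj u v → ¬ H.IsBridge s(u, v))
    (hfr : ∀ q r, fr q → fr r → q = r)
    (hfx : ∀ q, fr q → 2 ≤ t q.1 ∨ ∃ w, w ≠ q.1 ∧ H.Reachable q.1 w ∧ 1 ≤ t w)
    (hB : Barrier H t fr U S T) (hZ : OddComp (gad H t fr) U Z)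
    (hZq : ∀ q, (Sum.inl (Sum.inr q) : GW H t) ∉ Z) :
    20 ≤ ∑ z with z ∈ Z, om fr S T z := by
  classical
  by_cases hc : ∃ c : V × Fin 3, (Sum.inr c : GW H t) ∈ Z
  · by_cases hcS : ∃ c : V × Fin 3, (Sum.inr c : GW H t) ∈ Z ∧ c.1 ∈ S
    · obtain ⟨c, hcZ, hcS⟩ := hcS
      have h1 : om (H := H) fr S T (Sum.inr c) = 20 := by simp [om, hcS]
      rw [← h1]
      exact Finset.single_le_sum (f := om fr S T) (fun _ _ => Nat.zero_le _) (by simpa using hcZ)
    · push Not at hcS
      set D : Set V := {v | ∃ j, (Sum.inr (v, j) : GW H t) ∈ Z} with hD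
      have hDS : ∀ v ∈ D, v ∉ S := fun v ⟨j, hj⟩ => hcS (v, j) hj
      have hDT : ∀ v ∈ D, v ∉ T := fun v ⟨j, hj⟩ h => hZ.notMem hj ((hB.core v j).2 h)
      have hport : ∀ v ∈ D, ∀ p : Port H t, PortOf fr v p → (Sum.inl p : GW H t) ∈ Z := by
        rintro v ⟨j, hj⟩ p hp
        exact hZ.closed hj (fun h => hcS (v, j) hj ((hB.port v p hp).1 h)) (gad_cp.2 hp)
      have hallf : ∀ v ∈ D, ∀ i : Fin (t v), fr ⟨v, i⟩ := by
        intro v hv i
        by_contra hi
        exact hZq _ (hport v hv (Sum.inr ⟨v, i⟩) ⟨rfl, hi⟩)
      have htle : ∀ v ∈ D, t v ≤ 1 := by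
        intro v hv
        by_contra hcon
        push Not at hcon
        have h1 := hfr _ _ (hallf v hv ⟨0, by omega⟩) (hallf v hv ⟨1, by omega⟩)
        rw [Sigma.mk.injEq] at h1
        have h2 := eq_of_heq h1.2
        simp at h2
      have hdart : ∀ v ∈ D, ∃ d : H.Dart, d.fst = v := by
        intro v hv
        have h1 : 0 < H.degree v := by have := hdeg v; have := htle v hv; omega
        rw [H.degree_pos_iff_exists_adj] at h1
        obtain ⟨w, hw⟩ := h1
        exact ⟨⟨(v, w), hw⟩, rfl⟩
      have hcore : ∀ v ∈ D, ∀ j, (Sum.inr (v, j) : GW H t) ∈ Z := by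
        intro v hv j
        obtain ⟨d, hd⟩ := hdart v hv
        have h1 := hport v hv (Sum.inl d) hd
        exact hZ.closed h1 (fun h => hDT v hv ((hB.core v j).1 h)) (gad_pc.2 hd)
      have hdZ : ∀ d : H.Dart, d.fst ∈ D → (Sum.inl (Sum.inl d) : GW H t) ∈ Z :=
        fun d hd => hport d.fst hd (Sum.inl d) rfl
      -- boundary darts
      have hbd : ∀ d : H.Dart, d.fst ∈ D → d.snd ∉ D → d.snd ∉ S →
          d.snd ∈ T ∧ (Sum.inl (Sum.inl d.symm) : GW H t) ∈ Z := by
        intro d hd1 hd2 hd3
        have h1 : (Sum.inl (Sum.inl d.symm) : GW H t) ∈ Z :=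
          hZ.closed (hdZ d hd1) (fun h => hd3 ((hB.port d.snd (Sum.inl d.symm) rfl).1 h)) rfl
        refine ⟨?_, h1⟩
        by_contra h2
        exact hd2 ⟨0, hZ.closed h1 (fun h => h2 ((hB.core _ _).1 h)) rfl⟩
      let zb : H.Dart → GW H t := fun d =>
        if d.snd ∈ S then Sum.inl (Sum.inl d) else Sum.inl (Sum.inl d.symm)
      have hzb1 : ∀ d : H.Dart, d.fst ∈ D → d.snd ∉ D → zb d ∈ Z := by
        intro d h1 h2
        by_cases h3 : d.snd ∈ S
        · simp only [zb, h3, if_true]; exact hdZ d h1
        · simp only [zb, h3, if_false]; exact (hbd d h1 h2 h3).2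
      have hzb2 : ∀ d : H.Dart, d.fst ∈ D → d.snd ∉ D → 8 ≤ om fr S T (zb d) := by
        intro d h1 h2
        by_cases h3 : d.snd ∈ S
        · simp only [zb, h3, if_true, om]; omega
        · simp only [zb, h3, if_false, om]
          have : d.symm.fst ∈ T := (hbd d h1 h2 h3).1
          rw [if_pos this]; omega
      have hzb3 : ∀ d e : H.Dart, d.fst ∈ D → d.snd ∉ D → e.fst ∈ D → e.snd ∉ D → zb d = zb e →
          d = e := by
        intro d e h1 h2 h3 h4 heq
        by_cases h5 : d.snd ∈ S
        · by_cases h6 : e.snd ∈ S
          · simp only [zb, h5, h6, if_true] at heq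
            exact Sum.inl.inj (Sum.inl.inj heq)
          · simp only [zb, h5, h6, if_true, if_false] at heq
            have h7 := Sum.inl.inj (Sum.inl.inj heq)
            rw [h7] at h1
            exact absurd h1 h4
        · by_cases h6 : e.snd ∈ S
          · simp only [zb, h5, h6, if_true, if_false] at heq
            have h7 := Sum.inl.inj (Sum.inl.inj heq)
            rw [← h7] at h3
            exact absurd h3 h2
          · simp only [zb, h5, h6, if_false] at heq
            have h7 := Sum.inl.inj (Sum.inl.inj heq)
            rw [← Dart.symm_symm d, h7, Dart.symm_symm]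
      -- a second boundary dart
      have hsecond : ∀ d : H.Dart, d.fst ∈ D → d.snd ∉ D →
          ∃ e : H.Dart, e.fst ∈ D ∧ e.snd ∉ D ∧ e ≠ d := by
        intro d h1 h2
        have h3 := hbr _ _ d.adj
        rw [isBridge_iff] at h3
        push Not at h3
        obtain ⟨p⟩ := h3
        obtain ⟨a, b, hab, ha, hb⟩ := cross p h1 h2
        rw [deleteEdges_adj] at hab
        refine ⟨⟨(a, b), hab.1⟩, ha, hb, ?_⟩
        intro heq
        apply hab.2
        rw [Set.mem_singleton_iff]
        have h4 : a = d.fst := congrArg (fun d : H.Dart => d.fst) heq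
        have h5 : b = d.snd := congrArg (fun d : H.Dart => d.snd) heq
        rw [h4, h5]
      by_cases hq : ∃ q, fr q ∧ q.1 ∈ D
      · -- a forced half edge in `D`
        obtain ⟨⟨v, i⟩, hq, hv⟩ := hq
        simp only at hv
        have hbne : ∃ d : H.Dart, d.fst ∈ D ∧ d.snd ∉ D := by
          by_contra hcon
          push Not at hcon
          have hcl : ∀ w, H.Reachable v w → w ∈ D := by
            rintro w ⟨p⟩
            by_contra hw
            obtain ⟨a, b, hab, ha, hb⟩ := cross p hv hw
            exact hb (hcon ⟨(a, b), hab⟩ ha)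
          rcases hfx _ hq with h | ⟨w, hw1, hw2, hw3⟩
          · have := htle v hv
            simp only at h
            omega
          · have hwD := hcl w hw2
            have h1 := hfr _ _ hq (hallf w hwD ⟨0, hw3⟩)
            exact hw1 (congrArg Sigma.fst h1).symm
        obtain ⟨d, hd1, hd2⟩ := hbne
        obtain ⟨e, he1, he2, hed⟩ := hsecond d hd1 hd2
        have hfxv : 1 ≤ fx t fr v := by
          unfold fx
          exact Finset.card_pos.2 ⟨i, by simpa using hq⟩
        have hvS := hDS v hv
        have hw : ∀ j, 4 ≤ om (H := H) fr S T (Sum.inr (v, j)) := by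
          intro j
          simp only [om, hvS, if_false]
          omega
        have hsub : ({Sum.inr (v, 0), Sum.inr (v, 1), Sum.inr (v, 2), zb d, zb e} :
            Finset (GW H t)) ⊆ Finset.univ.filter (· ∈ Z) := by
          intro x hx
          simp only [Finset.mem_insert, Finset.mem_singleton] at hx
          rw [Finset.mem_filter]
          refine ⟨Finset.mem_univ _, ?_⟩
          rcases hx with rfl | rfl | rfl | rfl | rfl
          · exact hcore v hv 0
          · exact hcore v hv 1
          · exact hcore v hv 2
          · exact hzb1 d hd1 hd2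
          · exact hzb1 e he1 he2
        refine le_trans ?_ (Finset.sum_le_sum_of_subset hsub)
        have hzbl : ∀ d : H.Dart, ∃ p : Port H t, zb d = Sum.inl p := by
          intro d
          by_cases h3 : d.snd ∈ S
          · exact ⟨Sum.inl d, by simp only [zb, h3, if_true]⟩
          · exact ⟨Sum.inl d.symm, by simp only [zb, h3, if_false]⟩
        obtain ⟨pd, hpd⟩ := hzbl d
        obtain ⟨pe, hpe⟩ := hzbl e
        have hne : zb d ≠ zb e := fun h => hed (hzb3 d e hd1 hd2 he1 he2 h).symm
        rw [Finset.sum_insert, Finset.sum_insert, Finset.sum_insert, Finset.sum_insert,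
          Finset.sum_singleton]
        · have := hw 0
          have := hw 1
          have := hw 2
          have := hzb2 d hd1 hd2
          have := hzb2 e he1 he2
          omega
        · simpa using hne
        · simp [hpd, hpe]
        · simp [hpd, hpe]
        · simp [hpd, hpe]
      · -- no forced half edge in `D`
        push Not at hq
        have ht0 : ∀ v ∈ D, t v = 0 := by
          intro v hv
          by_contra h
          exact hq _ (hallf v hv ⟨0, Nat.pos_of_ne_zero h⟩) hv
        have hT : ∃ d : H.Dart, d.fst ∈ D ∧ d.snd ∉ D ∧ d.snd ∈ T := by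
          by_contra hcon
          push Not at hcon
          have hbS : ∀ d : H.Dart, d.fst ∈ D → d.snd ∉ D → d.snd ∈ S := by
            intro d h1 h2
            by_contra h3
            exact hcon d h1 h2 (hbd d h1 h2 h3).1
          have hY : Z = {x : GW H t | match x with
              | .inl (.inl d) => d.fst ∈ D
              | .inl (.inr _) => False
              | .inr c => c.1 ∈ D} := by
            obtain ⟨⟨v0, j0⟩, hc0⟩ := hc
            have hv0 : v0 ∈ D := ⟨j0, hc0⟩
            apply Set.Subset.antisymm
            · intro y hy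
              rw [hZ.reach hc0] at hy
              obtain ⟨p⟩ := hy
              have key : ∀ a b : GW H t, (off (gad H t fr) U).Walk a b →
                  (a ∈ {x : GW H t | match x with
                    | .inl (.inl d) => d.fst ∈ D
                    | .inl (.inr _) => False
                    | .inr c => c.1 ∈ D}) → b ∈ {x : GW H t | match x with
                    | .inl (.inl d) => d.fst ∈ D
                    | .inl (.inr _) => False
                    | .inr c => c.1 ∈ D} := by
                intro a b p
                induction p with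
                | nil => exact id
                | @cons a b c hab p ih =>
                  intro ha
                  apply ih
                  obtain ⟨hadj, haU, hbU⟩ := hab
                  rcases a with (d | q) | ⟨v, i⟩
                  · rcases b with (e | r) | ⟨w, j⟩
                    · rw [gad_dd] at hadj
                      subst hadj
                      simp only [Set.mem_setOf_eq] at ha ⊢
                      by_contra h
                      exact hbU ((hB.port d.snd (Sum.inl d.symm) rfl).2 (hbS d ha h))
                    · exact absurd hadj (by simp)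
                    · rw [gad_dc] at hadj
                      simp only [Set.mem_setOf_eq] at ha ⊢ hadj
                      rw [← hadj]; exact ha
                  · exact ha.elim
                  · rcases b with (e | r) | ⟨w, j⟩
                    · rw [gad_cd] at hadj
                      simp only [Set.mem_setOf_eq] at ha ⊢ hadj
                      rw [hadj]; exact ha
                    · rw [gad_cq] at hadj
                      simp only [Set.mem_setOf_eq] at ha hadj
                      have h0 := ht0 _ ha
                      rw [← hadj.1] at h0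
                      have := r.2.isLt
                      omega
                    · exact absurd hadj (by simp)
              exact key _ _ p hv0
            · rintro ((d | q) | ⟨v, j⟩) hy
              · exact hdZ d hy
              · exact hy.elim
              · exact hcore v hy j
          have hev := ncard_Y (H := H) (t := t) D (fun v hv => by
            have := hdeg v
            have := ht0 v hv
            omega)
          rw [← hY] at hev
          exact (Nat.not_odd_iff_even.mpr hev) hZ.2
        obtain ⟨d, hd1, hd2, hd3⟩ := hT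
        obtain ⟨e, he1, he2, hed⟩ := hsecond d hd1 hd2
        have hdS : d.snd ∉ S := fun h => hB.disj _ h hd3
        have hzd : zb d = Sum.inl (Sum.inl d.symm) := by simp only [zb, hdS, if_false]
        have h12 : 12 ≤ om fr S T (zb d) := by
          rw [hzd]
          simp only [om]
          have : d.symm.fst ∈ T := hd3
          rw [if_pos this]
          omega
        have hne : zb d ≠ zb e := fun h => hed (hzb3 d e hd1 hd2 he1 he2 h).symm
        have h8 := hzb2 e he1 he2
        have := two_le_sum (· ∈ Z) (om fr S T) hne (hzb1 d hd1 hd2) (hzb1 e he1 he2)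
        omega
  · -- no core in `Z`
    push Not at hc
    obtain ⟨z, hz⟩ : Z.Nonempty := by
      rw [Set.nonempty_iff_ne_empty]
      rintro rfl
      have := hZ.2
      simp at this
    have hdart : ∀ d : H.Dart, (Sum.inl (Sum.inl d) : GW H t) ∈ Z → d.fst ∈ T := by
      intro d hd
      by_contra h
      exact hc (d.fst, 0) (hZ.closed hd (fun h' => h ((hB.core _ _).1 h')) rfl)
    rcases z with (d | q) | c
    · have hdT := hdart d hz
      by_cases hs : d.snd ∈ S
      · have h1 : om (H := H) (t := t) fr S T (Sum.inl (Sum.inl d)) = 20 := by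
          simp [om, hdT, hs]
        rw [← h1]
        exact Finset.single_le_sum (f := om fr S T) (fun _ _ => Nat.zero_le _) (by simpa using hz)
      · have h1 : (Sum.inl (Sum.inl d.symm) : GW H t) ∈ Z :=
          hZ.closed hz (fun h => hs ((hB.port d.snd (Sum.inl d.symm) rfl).1 h)) rfl
        have h2 := hdart _ h1
        have h3 : (Sum.inl (Sum.inl d) : GW H t) ≠ Sum.inl (Sum.inl d.symm) := by
          intro h
          exact d.symm_ne (Sum.inl.inj (Sum.inl.inj h)).symm
        have h4 : 12 ≤ om (H := H) (t := t) fr S T (Sum.inl (Sum.inl d)) := by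
          simp only [om, hdT, if_true]; omega
        have h5 : 12 ≤ om (H := H) (t := t) fr S T (Sum.inl (Sum.inl d.symm)) := by
          simp only [om, h2, if_true]; omega
        have := two_le_sum (· ∈ Z) (om fr S T) h3 hz h1
        omega
    · exact absurd hz (hZq q)
    · exact absurd hz (hc c)

end L1

end Pool.Agent.H567R3.ZS
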