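import Pool.Agent.H567R3.ZS.Base

set_option autoImplicit false
set_option linter.deprecated false

namespace Pool.Agent.H567R3.ZS

open SimpleGraph

variable {V : Type}

theorem del_deg [Fintype V] {H : SimpleGraph V} {u v : V} (huv : H.Adj u v) :
    ((H.neighborSet u).ncard = ((H.deleteEdges {s(u, v)}).neighborSet u).ncard + 1) ∧
    ((H.neighborSet v).ncard = ((H.deleteEdges {s(u, v)}).neighborSet v).ncard + 1) ∧
    ∀ w, w ≠ u → w ≠ v →
      (H.neighborSet w).ncard = ((H.deleteEdges {s(u, v)}).neighborSet w).ncard := by
  classical
  have hne := huv.ne
  refine ⟨?_, ?_, ?_⟩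
  · have h1 : H.neighborSet u = insert v ((H.deleteEdges {s(u, v)}).neighborSet u) := by
      ext b
      simp only [mem_neighborSet, Set.mem_insert_iff, del_adj]
      constructor
      · intro h
        by_cases hb : b = v
        · exact Or.inl hb
        · refine Or.inr ⟨h, ?_⟩
          intro he
          rw [Sym2.eq_iff] at he
          rcases he with ⟨_, he⟩ | ⟨he, _⟩
          · exact hb he
          · exact hne he
      · rintro (rfl | ⟨h, _⟩)
        · exact huv
        · exact h
    rw [h1, Set.ncard_insert_of_notMem]
    rw [mem_neighborSet, del_adj]
    rintro ⟨_, h⟩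
    exact h rfl
  · have h1 : H.neighborSet v = insert u ((H.deleteEdges {s(u, v)}).neighborSet v) := by
      ext b
      simp only [mem_neighborSet, Set.mem_insert_iff, del_adj]
      constructor
      · intro h
        by_cases hb : b = u
        · exact Or.inl hb
        · refine Or.inr ⟨h, ?_⟩
          intro he
          rw [Sym2.eq_iff] at he
          rcases he with ⟨he, _⟩ | ⟨_, he⟩
          · exact hne he.symm
          · exact hb he
      · rintro (rfl | ⟨h, _⟩)
        · exact huv.symm
        · exact h
    rw [h1, Set.ncard_insert_of_notMem]
    rw [mem_neighborSet, del_adj]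
    rintro ⟨_, h⟩
    exact h Sym2.eq_swap
  · intro w hwu hwv
    congr 1
    ext b
    simp only [mem_neighborSet, del_adj]
    constructor
    · intro h
      refine ⟨h, ?_⟩
      intro he
      rw [Sym2.eq_iff] at he
      rcases he with ⟨he, _⟩ | ⟨he, _⟩
      · exact hwu he
      · exact hwv he
    · exact fun h => h.1

theorem main_ind [Fintype V] (n : ℕ) : ∀ (H : SimpleGraph V), H.edgeSet.ncard < n →
    ∀ (t : V → ℕ) (c : V → ℤ),
    (∀ v, (H.neighborSet v).ncard +
      (t v + (open Classical in (if c v = 0 then 0 else 1))) = 5) →
    (∀ v, c v ≠ 0 → c v = 2 ∨ c v = -2 ∨ c v = 4 ∨ c v = -4) →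
    (∀ u v, c u ≠ 0 → c v ≠ 0 → H.Reachable u v → u = v) →
    ∃ f, IsW H f ∧ ∀ v, Good H t c v (f v) := by
  classical
  induction n with
  | zero => intro H h; omega
  | succ n ih =>
    intro H hn t c hdeg hc huniq
    by_cases hbr : ∀ u v, H.Adj u v → ¬ H.IsBridge s(u, v)
    · exact base hbr (by convert hdeg) hc huniq
    · obtain ⟨u, v, huv, hnr, hroot⟩ : ∃ u v, H.Adj u v ∧
          ¬ (H.deleteEdges {s(u, v)}).Reachable u v ∧
          ∀ w, (H.deleteEdges {s(u, v)}).Reachable v w → c w = 0 := by
        push Not at hbr
        obtain ⟨u, v, huv, hb⟩ := hbr
        rw [isBridge_iff] at hb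
        by_cases hr : ∀ w, (H.deleteEdges {s(u, v)}).Reachable v w → c w = 0
        · exact ⟨u, v, huv, hb, hr⟩
        · push Not at hr
          obtain ⟨w, hw, hcw⟩ := hr
          refine ⟨v, u, huv.symm, ?_, ?_⟩
          · rw [Sym2.eq_swap]
            exact fun h => hb h.symm
          · intro z hz
            rw [Sym2.eq_swap] at hz
            by_contra hcz
            have hle : H.deleteEdges {s(u, v)} ≤ H := deleteEdges_le _
            have h1 : H.Reachable w z :=
              (hw.symm.mono hle).trans (huv.symm.reachable.trans (hz.mono hle))
            have h2 := huniq w z hcw hcz h1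
            subst h2
            exact hb (hz.trans hw.symm)
      have hne := huv.ne
      have hlt := del_ncard huv
      obtain ⟨hd1, hd2, hd3⟩ := del_deg huv
      have hle : H.deleteEdges {s(u, v)} ≤ H := deleteEdges_le _
      set H' := H.deleteEdges {s(u, v)} with hH'
      have hadj' : ∀ a b, H'.Adj a b ↔ H.Adj a b ∧ s(a, b) ≠ s(u, v) := fun a b => del_adj
      have hcv : c v = 0 := hroot v (Reachable.refl _)
      obtain ⟨f1, hf1, hg1⟩ := ih H' (by omega)
        (fun w => t w + (if w = u then 1 else 0) + (if w = v then 1 else 0)) c (by
          intro w
          have h1 := hdeg w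
          try simp only
          by_cases hwu : w = u
          · subst hwu
            rw [if_pos rfl, if_neg hne]
            omega
          · by_cases hwv : w = v
            · subst hwv
              rw [if_neg hwu, if_pos rfl]
              omega
            · rw [if_neg hwu, if_neg hwv]
              have := hd3 w hwu hwv
              omega) hc (fun a b ha hb hr => huniq a b ha hb (hr.mono hle))
      obtain ⟨hu1, s1u, hs1u, hsum1u⟩ := hg1 u
      beta_reduce at hs1u
      rw [if_pos rfl, if_neg hne, add_zero] at hs1u
      obtain ⟨d, hd, hs1u'⟩ := hs1u
      obtain ⟨f2, hf2, hg2⟩ := ih H' (by omega)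
        (fun w => t w + (if w = u then 1 else 0)) (fun w => if w = v then d else c w) (by
          intro w
          have h1 := hdeg w
          try simp only
          by_cases hwu : w = u
          · subst hwu
            rw [if_pos rfl, if_neg hne]
            omega
          · by_cases hwv : w = v
            · subst hwv
              rw [if_neg hwu, if_pos rfl]
              rw [hcv, if_pos rfl] at h1
              rw [if_neg (by omega : ¬ d = 0)]
              omega
            · rw [if_neg hwu, if_neg hwv]
              have := hd3 w hwu hwv
              omega) (by
          intro w hw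
          by_cases hwv : w = v
          · simp only [if_pos hwv]
            omega
          · simp only [if_neg hwv] at hw ⊢
            exact hc w hw) (by
          intro a b ha hb hr
          by_cases hav : a = v
          · by_cases hbv : b = v
            · rw [hav, hbv]
            · simp only [if_neg hbv] at hb
              exact absurd (hroot b (hav ▸ hr)) hb
          · by_cases hbv : b = v
            · simp only [if_neg hav] at ha
              exact absurd (hroot a (hbv ▸ hr.symm)) ha
            · simp only [if_neg hav] at ha
              simp only [if_neg hbv] at hb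
              exact huniq a b ha hb (hr.mono hle))
      -- the glued function
      let g : V → V → ℤ := fun a b => if H'.Reachable v a then f2 a b else f1 a b
      have hg : IsW H' g := by
        refine ⟨fun a b => ?_, fun a b hab => ?_⟩
        · by_cases hab : H'.Adj a b
          · have h5 : H'.Reachable v a ↔ H'.Reachable v b :=
              ⟨fun h => h.trans hab.reachable, fun h => h.trans hab.symm.reachable⟩
            simp only [g, h5]
            rw [hf1.symm, hf2.symm]
          · have hba : ¬ H'.Adj b a := fun h => hab h.symm
            simp only [g]
            rw [hf1.supp _ _ hab, hf2.supp _ _ hab, hf1.supp _ _ hba, hf2.supp _ _ hba]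
            simp
        · simp only [g]
          rw [hf1.supp _ _ hab, hf2.supp _ _ hab]
          simp
      refine ⟨fun a b => g a b + ew u v d a b, ⟨fun a b => ?_, fun a b hab => ?_⟩, ?_⟩
      · rw [hg.symm, (ew_isW huv d).symm]
      · rw [hg.supp _ _ (fun h => hab (hle h)), (ew_isW huv d).supp _ _ hab]
        simp
      · intro w
        refine ⟨fun b hb => ?_, ?_⟩
        · beta_reduce
          by_cases he : s(w, b) = s(u, v)
          · have h1 : ¬ H'.Adj w b := by
              rw [hadj']
              tauto
            rw [hg.supp _ _ h1]
            unfold ew
            rw [if_pos he, zero_add]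
            rcases hd with rfl | rfl | rfl | rfl <;> norm_num
          · have h1 : H'.Adj w b := (hadj' w b).2 ⟨hb, he⟩
            have h2 : ew u v d w b = 0 := by
              unfold ew
              rw [if_neg he]
            rw [h2, add_zero]
            simp only [g]
            split_ifs
            · exact (hg2 w).1 b h1
            · exact (hg1 w).1 b h1
        · rw [Finset.sum_add_distrib]
          by_cases hK : H'.Reachable v w
          · have hsg : ∑ b, g w b = ∑ b, f2 w b := by
              apply Finset.sum_congr rfl
              intro b _
              simp only [g]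
              rw [if_pos hK]
            rw [hsg]
            have hwu : w ≠ u := by
              rintro rfl
              exact hnr hK.symm
            obtain ⟨-, s, hs, hsum⟩ := hg2 w
            beta_reduce at hs hsum
            rw [if_neg hwu, add_zero] at hs
            refine ⟨s, hs, ?_⟩
            by_cases hwv : w = v
            · subst hwv
              rw [if_pos rfl] at hsum
              rcases ew_sum hne d w with ⟨h6, _⟩ | ⟨_, _, h7⟩
              · rw [h6, hcv]
                linarith
              · exact absurd rfl h7
            · rw [if_neg hwv] at hsum
              rcases ew_sum hne d w with ⟨_, h7⟩ | ⟨h6, _⟩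
              · rcases h7 with h7 | h7
                · exact absurd h7 hwu
                · exact absurd h7 hwv
              · rw [h6]
                linarith
          · have hsg : ∑ b, g w b = ∑ b, f1 w b := by
              apply Finset.sum_congr rfl
              intro b _
              simp only [g]
              rw [if_neg hK]
            rw [hsg]
            have hwv : w ≠ v := by
              rintro rfl
              exact hK (Reachable.refl _)
            by_cases hwu : w = u
            · subst hwu
              refine ⟨s1u - d, hs1u', ?_⟩
              rcases ew_sum hne d w with ⟨h6, _⟩ | ⟨_, h7, _⟩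
              · rw [h6]
                linarith
              · exact absurd rfl h7
            · obtain ⟨-, s, hs, hsum⟩ := hg1 w
              beta_reduce at hs
              rw [if_neg hwu, if_neg hwv, add_zero, add_zero] at hs
              refine ⟨s, hs, ?_⟩
              rcases ew_sum hne d w with ⟨_, h7⟩ | ⟨h6, _⟩
              · rcases h7 with h7 | h7
                · exact absurd h7 hwu
                · exact absurd h7 hwv
              · rw [h6]
                linarith

/-- **Every 5-regular graph has a zero-sum 5-flow.** -/
theorem zero_sum_five [Fintype V] [DecidableEq V] (G : SimpleGraph V) [DecidableRel G.Adj]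
    (hG : G.IsRegularOfDegree 5) :
    ∃ f : Sym2 V → ℤ, (∀ e ∈ G.edgeSet, f e ≠ 0 ∧ |f e| < 5) ∧
      ∀ v : V, ∑ w ∈ G.neighborFinset v, f s(v, w) = 0 := by
  obtain ⟨f, hf, hg⟩ := main_ind (G.edgeSet.ncard + 1) G (Nat.lt_succ_self _) (fun _ => 0)
    (fun _ => 0) (by
      intro v
      have h1 := hG v
      rw [← card_neighborFinset_eq_degree, ← Set.ncard_coe_finset, coe_neighborFinset] at h1
      simp [h1]) (by intro v hv; exact absurd rfl hv) (by intro u v hu; exact absurd rfl hu)
  refine ⟨Sym2.lift ⟨f, fun a b => hf.symm a b⟩, ?_, ?_⟩
  · intro e he
    induction e with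
    | h a b => exact (hg a).1 b he
  · intro v
    obtain ⟨-, s, hs, hsum⟩ := hg v
    have hs0 : s = 0 := hs
    rw [hs0] at hsum
    have h1 : ∑ w ∈ G.neighborFinset v, f v w = ∑ w, f v w := by
      apply Finset.sum_subset (Finset.subset_univ _)
      intro w _ hw
      rw [mem_neighborFinset] at hw
      exact hf.supp v w hw
    simp only [Sym2.lift_mk]
    rw [h1]
    linarith

end Pool.Agent.H567R3.ZS
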