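import Pool.Agent.H567R3.ZS.Sgn

set_option autoImplicit false
set_option linter.deprecated false

namespace Pool.Agent.H567R3.ZS

open SimpleGraph

variable {V : Type} {H : SimpleGraph V}

/-- alternating sum of the edges of a walk -/
noncomputable def alt : {a b : V} → H.Walk a b → V → V → ℤ
  | _, _, .nil => fun _ _ => 0
  | _, _, .cons (u := u) (v := v) _ p => fun a b => ew u v 1 a b - alt p a b

theorem alt_isW {a b : V} (p : H.Walk a b) : IsW H (alt p) := by
  induction p with
  | nil => exact ⟨fun _ _ => rfl, fun _ _ _ => rfl⟩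
  | cons h p ih =>
    refine ⟨fun a b => ?_, fun a b hab => ?_⟩
    · unfold alt
      rw [ih.symm, (ew_isW h 1).symm]
    · unfold alt
      rw [ih.supp _ _ hab, (ew_isW h 1).supp _ _ hab]
      simp

theorem alt_notMem {a b : V} (p : H.Walk a b) (c d : V) (h : s(c, d) ∉ p.edges) :
    alt p c d = 0 := by
  classical
  induction p with
  | nil => rfl
  | cons h' p ih =>
    rw [Walk.edges_cons, List.mem_cons, not_or] at h
    unfold alt
    rw [ih h.2]
    unfold ew
    rw [if_neg h.1]
    simp

theorem alt_abs {a b : V} (p : H.Walk a b) (hp : p.IsTrail) (c d : V) : |alt p c d| ≤ 1 := by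
  classical
  induction p with
  | nil => simp [alt]
  | cons h' p ih =>
    rw [Walk.isTrail_cons] at hp
    unfold alt
    unfold ew
    split_ifs with h1
    · rw [alt_notMem p c d (by rw [h1]; exact hp.2)]
      simp
    · rw [zero_sub, abs_neg]
      exact ih hp.1

theorem alt_sum [Fintype V] {a b : V} (p : H.Walk a b) (w : V) :
    (∑ x, alt p w x) = (open Classical in (if w = a then 1 else 0)) -
      (-1) ^ p.length * (open Classical in (if w = b then 1 else 0)) := by
  classical
  induction p with
  | nil => simp [alt]
  | @cons u v c h' p ih =>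
    have h1 : (∑ x, alt (Walk.cons h' p) w x) = (∑ x, ew u v 1 w x) - ∑ x, alt p w x := by
      rw [← Finset.sum_sub_distrib]
      rfl
    rw [h1, ih, Walk.length_cons, pow_succ]
    have hne := h'.ne
    rcases ew_sum hne 1 w with ⟨h2, h3⟩ | ⟨h2, h3, h4⟩
    · rw [h2]
      rcases h3 with rfl | rfl
      · rw [if_pos rfl, if_neg hne]
        ring
      · rw [if_pos rfl, if_neg hne.symm]
        ring
    · rw [h2, if_neg h3, if_neg h4]
      ring

/-- an odd closed trail at `v` -/
def OT (H : SimpleGraph V) (v : V) : Prop := ∃ p : H.Walk v v, p.IsTrail ∧ Odd p.length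

theorem first_hit {u v : V} (S : V → Prop) (p : H.Walk u v) (hv : S v) :
    ∃ z, S z ∧ ∃ q : H.Walk u z, (∀ e ∈ q.edges, e ∈ p.edges) ∧ ∀ e ∈ q.edges, ∃ a ∈ e, ¬ S a := by
  classical
  induction p with
  | nil => exact ⟨_, hv, Walk.nil, by simp, by simp⟩
  | @cons a b c h p ih =>
    by_cases ha : S a
    · exact ⟨a, ha, Walk.nil, by simp, by simp⟩
    · obtain ⟨z, hz, q, hq1, hq2⟩ := ih hv
      refine ⟨z, hz, Walk.cons h q, ?_, ?_⟩
      · intro e he
        rw [Walk.edges_cons, List.mem_cons] at he ⊢
        rcases he with he | he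
        · exact Or.inl he
        · exact Or.inr (hq1 e he)
      · intro e he
        rw [Walk.edges_cons, List.mem_cons] at he
        rcases he with rfl | he
        · exact ⟨a, by simp, ha⟩
        · exact hq2 e he

theorem OT.step {u v : V} (huv : H.Adj u v) (hb : ¬ H.IsBridge s(u, v)) (h : OT H v) : OT H u := by
  classical
  obtain ⟨W, hW, hodd⟩ := h
  by_cases hu : u ∈ W.support
  · refine ⟨W.rotate u hu, ?_, ?_⟩
    · rw [Walk.isTrail_def] at hW ⊢
      exact (Walk.rotate_edges W u hu).perm.nodup_iff.2 hW
    · rw [Walk.length_rotate]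
      exact hodd
  · rw [isBridge_iff_forall_walk_mem_edges] at hb
    push Not at hb
    obtain ⟨P, hP⟩ := hb
    obtain ⟨z, hz, q, hq1, hq2⟩ := first_hit (fun a => a ∈ W.support) P W.start_mem_support
    set Q := q.bypass with hQ
    have hQp : Q.IsTrail := (Walk.bypass_isPath q).isTrail
    have hQ1 : ∀ e ∈ Q.edges, e ∈ P.edges := fun e he => hq1 e (Walk.edges_bypass_subset q he)
    have hQ2 : ∀ e ∈ Q.edges, e ∉ W.edges := by
      intro e he hew
      obtain ⟨a, ha, hna⟩ := hq2 e (Walk.edges_bypass_subset q he)
      induction e with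
      | h x y =>
        apply hna
        rw [Sym2.mem_iff] at ha
        rcases ha with rfl | rfl
        · exact Walk.fst_mem_support_of_mem_edges W hew
        · exact Walk.snd_mem_support_of_mem_edges W hew
    have huvW : s(u, v) ∉ W.edges := fun h => hu (Walk.fst_mem_support_of_mem_edges W h)
    have huvQ : s(u, v) ∉ Q.edges := fun h => hP (hQ1 _ h)
    -- any trail `R : z → v` inside `W`
    have main : ∀ R : H.Walk z v, R.IsTrail → (∀ e ∈ R.edges, e ∈ W.edges) →
        (Walk.append Q (R.append (Walk.cons huv.symm Walk.nil))).IsTrail := by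
      intro R hR hRW
      rw [Walk.isTrail_def, Walk.edges_append, Walk.edges_append, List.nodup_append',
        List.nodup_append']
      refine ⟨hQp.edges_nodup, ⟨hR.edges_nodup, by simp, ?_⟩, ?_⟩
      · intro e he1 he2
        rw [Walk.edges_cons, Walk.edges_nil, List.mem_singleton] at he2
        subst he2
        apply huvW
        rw [Sym2.eq_swap]
        exact hRW _ he1
      · intro e he1 he2
        rw [List.mem_append] at he2
        rcases he2 with he2 | he2
        · exact hQ2 e he1 (hRW e he2)
        · rw [Walk.edges_cons, Walk.edges_nil, List.mem_singleton] at he2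
          subst he2
          apply huvQ
          rw [Sym2.eq_swap]
          exact he1
    have hlen : (W.takeUntil z hz).length + (W.dropUntil z hz).length = W.length := by
      conv_rhs => rw [← Walk.take_spec W hz]
      rw [Walk.length_append]
    by_cases hpar : Odd (Q.length + (W.dropUntil z hz).length + 1)
    · refine ⟨_, main (W.dropUntil z hz) (hW.dropUntil hz) (fun e he => Walk.edges_dropUntil_subset W hz he), ?_⟩
      rw [Walk.length_append, Walk.length_append, Walk.length_cons, Walk.length_nil]
      convert hpar using 1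
      omega
    · refine ⟨_, main (W.takeUntil z hz).reverse ((hW.takeUntil hz).reverse) (fun e he => ?_), ?_⟩
      · rw [Walk.edges_reverse, List.mem_reverse] at he
        exact Walk.edges_takeUntil_subset W hz he
      · rw [Walk.length_append, Walk.length_append, Walk.length_cons, Walk.length_nil,
          Walk.length_reverse]
        rw [Nat.not_odd_iff_even] at hpar
        rw [← hlen] at hodd
        rw [Nat.odd_iff] at hodd ⊢
        rw [Nat.even_iff] at hpar
        omega

theorem OT.reach (hbr : ∀ u v, H.Adj u v → ¬ H.IsBridge s(u, v)) {x v : V} (hxv : H.Reachable x v)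
    (h : OT H v) : OT H x := by
  obtain ⟨p⟩ := hxv
  induction p with
  | nil => exact h
  | cons hadj p ih => exact (ih h).step hadj (hbr _ _ hadj)

/-- without odd closed trails every walk can be shortened to a path of the same parity -/
theorem exists_path_par {b : V} (hno : ∀ v, H.Reachable b v → ¬ OT H v) {a : V} (p : H.Walk a b) :
    ∃ q : H.Walk a b, q.IsPath ∧ Even (q.length + p.length) := by
  classical
  induction p with
  | nil => exact ⟨Walk.nil, by simp, by simp⟩
  | @cons a a' b h p ih =>
    obtain ⟨q, hq, hev⟩ := ih hno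
    by_cases ha : a ∈ q.support
    · refine ⟨q.dropUntil a ha, hq.dropUntil ha, ?_⟩
      have hlen : (q.takeUntil a ha).length + (q.dropUntil a ha).length = q.length := by
        conv_rhs => rw [← Walk.take_spec q ha]
        rw [Walk.length_append]
      have hodd : Odd (q.takeUntil a ha).length := by
        by_cases he : s(a', a) ∈ (q.takeUntil a ha).edges
        · rw [(hq.takeUntil ha).length_eq_one_of_mem_edges he]
          exact odd_one
        · by_contra hcon
          rw [Nat.not_odd_iff_even] at hcon
          refine hno a ⟨(Walk.cons h p).reverse⟩ ⟨Walk.cons h (q.takeUntil a ha), ?_, ?_⟩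
          · rw [Walk.isTrail_cons]
            refine ⟨(hq.takeUntil ha).isTrail, ?_⟩
            rw [Sym2.eq_swap]
            exact he
          · rw [Walk.length_cons]
            exact hcon.add_one
      rw [Walk.length_cons]
      rw [Nat.odd_iff] at hodd
      rw [Nat.even_iff] at hev ⊢
      omega
    · refine ⟨Walk.cons h q, ?_, ?_⟩
      · rw [Walk.cons_isPath_iff]
        exact ⟨hq, ha⟩
      · rw [Walk.length_cons, Walk.length_cons]
        rw [Nat.even_iff] at hev ⊢
        omega

theorem even_closed {b : V} (hno : ∀ v, H.Reachable b v → ¬ OT H v) (p : H.Walk b b) :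
    Even p.length := by
  obtain ⟨q, hq, hev⟩ := exists_path_par hno p
  rw [Walk.isPath_iff_eq_nil] at hq
  subst hq
  simpa using hev

theorem exists_OT [Fintype V] (hbr : ∀ u v, H.Adj u v → ¬ H.IsBridge s(u, v)) (x : V)
    (hx : (H.neighborSet x).ncard = 4)
    (hdeg : ∀ v, v ≠ x → H.Reachable x v → (H.neighborSet v).ncard = 5) : OT H x := by
  classical
  by_contra hno'
  have hno : ∀ v, H.Reachable x v → ¬ OT H v := fun v hv h => hno' (OT.reach hbr hv h)
  -- the two-colouring
  let ε : V → ℤ := fun v => if h : H.Reachable x v then (-1) ^ (h.some.length) else 0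
  have hε : ∀ (v : V) (p : H.Walk x v), ε v = (-1) ^ p.length := by
    intro v p
    have hr : H.Reachable x v := ⟨p⟩
    simp only [ε]
    rw [dif_pos hr]
    have h1 := even_closed hno (hr.some.append p.reverse)
    rw [Walk.length_append, Walk.length_reverse] at h1
    rcases Nat.even_or_odd hr.some.length with h2 | h2
    · have h3 : Even p.length := by
        rw [Nat.even_add] at h1; tauto
      rw [h2.neg_one_pow, h3.neg_one_pow]
    · have h3 : Odd p.length := by
        rw [Nat.even_add, ← Nat.not_odd_iff_even, ← Nat.not_odd_iff_even] at h1; tauto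
      rw [h2.neg_one_pow, h3.neg_one_pow]
  have hadj : ∀ a b, H.Adj a b → ε a = - ε b := by
    intro a b hab
    by_cases hr : H.Reachable x a
    · obtain ⟨p⟩ := hr
      rw [hε a p, hε b (p.concat hab), Walk.length_concat, pow_succ]
      ring
    · have hr' : ¬ H.Reachable x b := fun h => hr (h.trans hab.symm.reachable)
      simp only [ε]
      rw [dif_neg hr, dif_neg hr']
      simp
  have hS : ∑ a, ∑ b, (if H.Adj a b then ε a else 0) = 0 := by
    have h1 : ∑ a, ∑ b, (if H.Adj a b then ε a else 0) = - ∑ a, ∑ b, (if H.Adj a b then ε a else 0) := by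
      conv_lhs => rw [Finset.sum_comm]
      rw [← Finset.sum_neg_distrib]
      apply Finset.sum_congr rfl
      intro a _
      rw [← Finset.sum_neg_distrib]
      apply Finset.sum_congr rfl
      intro b _
      by_cases hab : H.Adj a b
      · rw [if_pos hab, if_pos hab.symm, hadj b a hab.symm]
      · rw [if_neg hab, if_neg (fun h => hab h.symm)]
        simp
    omega
  have hS2 : ∀ a, ∑ b, (if H.Adj a b then ε a else 0) = 5 * ε a - (if a = x then ε a else 0) := by
    intro a
    rw [← Finset.sum_filter, Finset.sum_const, nsmul_eq_mul]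
    have h1 : (Finset.univ.filter fun b => H.Adj a b).card = (H.neighborSet a).ncard := by
      rw [← Set.ncard_coe_finset]
      congr 1
      ext b
      simp
    rw [h1]
    by_cases ha : a = x
    · subst ha
      rw [hx, if_pos rfl]
      push_cast
      ring
    · rw [if_neg ha]
      by_cases hr : H.Reachable x a
      · rw [hdeg a ha hr]
        push_cast
        ring
      · have h2 : ε a = 0 := by
          simp only [ε]
          rw [dif_neg hr]
        rw [h2]
        simp
  rw [Finset.sum_congr rfl (fun a _ => hS2 a), Finset.sum_sub_distrib, ← Finset.mul_sum,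
    Finset.sum_ite_eq' Finset.univ x, if_pos (Finset.mem_univ _)] at hS
  have h3 : ε x = 1 := by
    rw [hε x Walk.nil]
    simp
  rw [h3] at hS
  omega

/-- **The half-integral correction**: `h` with sum `2` at `x` and `0` elsewhere. -/
theorem exists_two [Fintype V] (hbr : ∀ u v, H.Adj u v → ¬ H.IsBridge s(u, v)) (x : V)
    (hx : (H.neighborSet x).ncard = 4)
    (hdeg : ∀ v, v ≠ x → H.Reachable x v → (H.neighborSet v).ncard = 5) :
    ∃ h : V → V → ℤ, IsW H h ∧ (∀ a b, |h a b| ≤ 1) ∧
      ∑ w, h x w = 2 ∧ ∀ v, v ≠ x → ∑ w, h v w = 0 := by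
  classical
  obtain ⟨p, hp, hodd⟩ := exists_OT hbr x hx hdeg
  refine ⟨alt p, alt_isW p, alt_abs p hp, ?_, ?_⟩
  · rw [alt_sum, hodd.neg_one_pow]
    simp
  · intro v hv
    rw [alt_sum, if_neg hv]
    simp

end Pool.Agent.H567R3.ZS
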