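import Pool.Agent.H567R3.ZS.Count

set_option autoImplicit false
set_option linter.deprecated false

namespace Pool.Agent.H567R3.ZS

open SimpleGraph Pool.Agent.Helper96.TwoFactor

variable {V : Type} {H : SimpleGraph V} {t : V → ℕ} {fr : (Σ v, Fin (t v)) → Prop}

lemma sum_darts [Fintype V] [DecidableRel H.Adj] (g : V → ℕ) :
    ∑ d : H.Dart, g d.fst = ∑ v, H.degree v * g v := by
  classical
  rw [← Finset.sum_fiberwise (s := Finset.univ) (g := fun d : H.Dart => d.fst)]
  apply Finset.sum_congr rfl
  intro v _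
  have h : ∀ d ∈ (Finset.univ : Finset H.Dart).filter (fun d => d.fst = v), g d.fst = g v := by
    intro d hd
    rw [Finset.mem_filter] at hd
    rw [hd.2]
  rw [Finset.sum_congr rfl h, Finset.sum_const, smul_eq_mul,
    ← H.dart_fst_fiber_card_eq_degree v]

lemma sum_darts_symm [Fintype V] [DecidableRel H.Adj] (g : V → ℕ) :
    ∑ d : H.Dart, g d.snd = ∑ d : H.Dart, g d.fst := by
  refine Finset.sum_nbij' (fun d => d.symm) (fun d => d.symm) ?_ ?_ ?_ ?_ ?_
  · intro d _; exact Finset.mem_univ _
  · intro d _; exact Finset.mem_univ _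
  · intro d _; exact d.symm_symm
  · intro d _; exact d.symm_symm
  · intro d _; rfl

open Classical in
theorem total_le [Fintype V] [DecidableRel H.Adj]
    {U : Set (GW H t)} {S T : Set V}
    (hdeg : ∀ v, H.degree v + t v = 5)
    (hfr : ∀ q r, fr q → fr r → q = r)
    (hB : Barrier H t fr U S T) :
    ∑ z : GW H t, (if z ∈ U then 0 else om fr S T z) ≤ 20 * U.ncard + 12 := by
  -- the number of forced half edges
  have hfx : ∑ v, fx t fr v ≤ 1 := by
    unfold fx
    have h1 : ∑ v, ((Finset.univ : Finset (Fin (t v))).filter (fun i => fr ⟨v, i⟩)).card =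
        ((Finset.univ : Finset (Σ v, Fin (t v))).filter fr).card := by
      rw [Finset.card_filter, Fintype.sum_sigma]
      apply Finset.sum_congr rfl
      intro v _
      rw [Finset.card_filter]
    rw [h1, Finset.card_le_one]
    intro a ha b hb
    rw [Finset.mem_filter] at ha hb
    exact hfr _ _ ha.2 hb.2
  have hU : U.ncard = ∑ z : GW H t, (if z ∈ U then 1 else 0) := by
    rw [Set.ncard_eq_toFinset_card', Finset.sum_ite, Finset.sum_const_zero, add_zero,
      Finset.sum_const, smul_eq_mul, mul_one]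
    congr 1
    ext z
    simp
  rw [hU, Fintype.sum_sum_type, Fintype.sum_sum_type, Fintype.sum_sum_type, Fintype.sum_sum_type]
  -- darts, left
  have l1 : ∑ d : H.Dart, (if (Sum.inl (Sum.inl d) : GW H t) ∈ U then 0 else
      om fr S T (Sum.inl (Sum.inl d))) ≤
      ∑ v, H.degree v * ((if v ∈ T then 12 else 0) + (if v ∈ S then 8 else 0)) := by
    have h1 : ∀ d : H.Dart, (if (Sum.inl (Sum.inl d) : GW H t) ∈ U then 0 else
      om fr S T (Sum.inl (Sum.inl d))) ≤ (fun v => if v ∈ T then 12 else 0) d.fst +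
        (fun v => if v ∈ S then 8 else 0) d.snd := by
      intro d
      split_ifs with h
      · exact Nat.zero_le _
      · exact le_refl _
    refine (Finset.sum_le_sum (fun d _ => h1 d)).trans ?_
    have e1 := sum_darts_symm (H := H) (fun v => if v ∈ S then 8 else 0)
    have e2 := sum_darts (H := H) (fun v => if v ∈ S then 8 else 0)
    have e3 := sum_darts (H := H) (fun v => if v ∈ T then 12 else 0)
    rw [Finset.sum_add_distrib, e1, e2, e3, ← Finset.sum_add_distrib]
    apply Finset.sum_le_sum
    intro v _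
    rw [mul_add]
  have l2 : ∑ q : (Σ v, Fin (t v)), (if (Sum.inl (Sum.inr q) : GW H t) ∈ U then 0 else
      om (H := H) fr S T (Sum.inl (Sum.inr q))) = 0 := by
    apply Finset.sum_eq_zero
    intro q _
    simp [om]
  have l3 : ∑ c : V × Fin 3, (if (Sum.inr c : GW H t) ∈ U then 0 else
      om (H := H) fr S T (Sum.inr c)) ≤
      ∑ v, 3 * (if v ∈ T then 0 else if v ∈ S then 20 else 4 * fx t fr v) := by
    rw [Fintype.sum_prod_type]
    apply Finset.sum_le_sum
    intro v _
    rw [Finset.sum_congr rfl (g := fun _ => (if v ∈ T then 0 else if v ∈ S then 20 else 4 * fx t fr v))]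
    · rw [Finset.sum_const, Finset.card_univ, Fintype.card_fin, smul_eq_mul]
    · intro j _
      by_cases h : v ∈ T
      · rw [if_pos h, if_pos ((hB.core v j).2 h)]
      · rw [if_neg h, if_neg (fun h' => h ((hB.core v j).1 h'))]
        rfl
  -- right side
  have r1 : ∑ d : H.Dart, (if (Sum.inl (Sum.inl d) : GW H t) ∈ U then 1 else 0) =
      ∑ v, H.degree v * (if v ∈ S then 1 else 0) := by
    rw [← sum_darts]
    apply Finset.sum_congr rfl
    intro d _
    rw [hB.port d.fst (Sum.inl d) rfl]
  have r2 : ∑ v, (t v - fx t fr v) * (if v ∈ S then 1 else 0) ≤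
      ∑ q : (Σ v, Fin (t v)), (if (Sum.inl (Sum.inr q) : GW H t) ∈ U then 1 else 0) := by
    rw [Fintype.sum_sigma]
    apply Finset.sum_le_sum
    intro v _
    by_cases hv : v ∈ S
    · rw [if_pos hv, mul_one]
      have h1 : t v - fx t fr v = ((Finset.univ : Finset (Fin (t v))).filter
          (fun i => ¬ fr ⟨v, i⟩)).card := by
        have := Finset.card_filter_add_card_filter_not
          (s := (Finset.univ : Finset (Fin (t v)))) (fun i => fr ⟨v, i⟩)
        rw [Finset.card_univ, Fintype.card_fin] at this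
        unfold fx
        omega
      rw [h1, Finset.card_filter]
      apply Finset.sum_le_sum
      intro i _
      by_cases hi : fr ⟨v, i⟩
      · simp [hi]
      · have h2 := hB.port v (Sum.inr ⟨v, i⟩) ⟨rfl, hi⟩
        rw [if_pos hi, if_pos (h2.2 hv)]
    · rw [if_neg hv, mul_zero]
      exact Nat.zero_le _
  have r3 : ∑ c : V × Fin 3, (if (Sum.inr c : GW H t) ∈ U then 1 else 0) =
      ∑ v, 3 * (if v ∈ T then 1 else 0) := by
    rw [Fintype.sum_prod_type]
    apply Finset.sum_congr rfl
    intro v _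
    rw [Finset.sum_congr rfl (g := fun _ => (if v ∈ T then 1 else 0))]
    · rw [Finset.sum_const, Finset.card_univ, Fintype.card_fin, smul_eq_mul]
    · intro j _
      rw [hB.core v j]
  rw [r1, r3, l2, add_zero]
  have key : ∑ v, H.degree v * ((if v ∈ T then 12 else 0) + (if v ∈ S then 8 else 0)) +
      ∑ v, 3 * (if v ∈ T then 0 else if v ∈ S then 20 else 4 * fx t fr v) ≤
      20 * (∑ v, H.degree v * (if v ∈ S then 1 else 0) +
        ∑ v, (t v - fx t fr v) * (if v ∈ S then 1 else 0) +
        ∑ v, 3 * (if v ∈ T then 1 else 0)) + 12 * ∑ v, fx t fr v := by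
    rw [← Finset.sum_add_distrib, ← Finset.sum_add_distrib, ← Finset.sum_add_distrib,
      Finset.mul_sum, Finset.mul_sum, ← Finset.sum_add_distrib]
    apply Finset.sum_le_sum
    intro v _
    have hfv : fx t fr v ≤ t v := by
      unfold fx
      refine (Finset.card_filter_le _ _).trans ?_
      rw [Finset.card_univ, Fintype.card_fin]
    have hd := hdeg v
    have hdj := hB.disj v
    by_cases h1 : v ∈ T
    · have h2 : v ∉ S := fun h => hdj h h1
      simp only [h1, h2, if_true, if_false]
      omega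
    · by_cases h2 : v ∈ S
      · simp only [h1, h2, if_true, if_false]
        omega
      · simp only [h1, h2, if_false]
        omega
  omega

theorem exists_pm [Finite V]
    (hdeg : ∀ v, (H.neighborSet v).ncard + t v = 5)
    (hbr : ∀ u v, H.Adj u v → ¬ H.IsBridge s(u, v))
    (hfr : ∀ q r, fr q → fr r → q = r)
    (hfx : ∀ q, fr q → 2 ≤ t q.1 ∨ ∃ w, w ≠ q.1 ∧ H.Reachable q.1 w ∧ 1 ≤ t w) :
    ∃ M : Subgraph (gad H t fr), M.IsPerfectMatching := by
  classical
  have := Fintype.ofFinite V
  have hdeg' : ∀ v, H.degree v + t v = 5 := by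
    intro v
    rw [← hdeg v, ← H.card_neighborSet_eq_degree v, Set.ncard_eq_toFinset_card', Set.toFinset_card]
  by_contra hno
  have hev : Even (Nat.card (GW H t)) := by
    have h1 : Nat.card (GW H t) = ∑ v : V, 8 := by
      rw [Nat.card_eq_fintype_card, Fintype.card_sum, Fintype.card_sum, Fintype.card_prod,
        Fintype.card_fin, Fintype.card_sigma]
      have h2 : Fintype.card H.Dart = ∑ v, H.degree v := by
        have := sum_darts (H := H) (fun _ => 1)
        simpa using this
      rw [h2, ← Finset.sum_add_distrib]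
      have h3 : Fintype.card V * 3 = ∑ v : V, 3 := by simp
      rw [h3, ← Finset.sum_add_distrib]
      apply Finset.sum_congr rfl
      intro v _
      have := hdeg' v
      simp only [Fintype.card_fin]
      omega
    rw [h1, Finset.sum_const, smul_eq_mul]
    exact ⟨Finset.card (Finset.univ : Finset V) * 4, by ring⟩
  obtain ⟨U, S, T, hU, hB⟩ := exists_barrier hev hno
  have htot := total_le hdeg' hfr hB
  let Zf := (Set.toFinite {Z | OddComp (gad H t fr) U Z}).toFinset
  have hZf : ∀ Z, Z ∈ Zf ↔ OddComp (gad H t fr) U Z := fun Z => Set.Finite.mem_toFinset _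
  have hcard : {Z | OddComp (gad H t fr) U Z}.ncard = Zf.card :=
    Set.ncard_eq_toFinset_card _ _
  let P : Set (GW H t) → Prop := fun Z => ∃ q, (Sum.inl (Sum.inr q) : GW H t) ∈ Z
  have hP1 : (Zf.filter P).card ≤ 1 := by
    rw [Finset.card_le_one]
    intro A hA B hB'
    rw [Finset.mem_filter, hZf] at hA hB'
    obtain ⟨hA1, q, hq⟩ := hA
    obtain ⟨hB1, r, hr⟩ := hB'
    by_cases hqr : q = r
    · subst hqr
      exact hA1.eq_of_mem hB1 hq hr
    · refine hA1.eq_of_mem hB1 (hA1.closed hq (hB1.notMem hr) ?_) hr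
      rw [gad_qq]; exact hqr
  have hsplit := Finset.card_filter_add_card_filter_not (s := Zf) P
  have hlow : 20 * (Zf.filter (fun Z => ¬ P Z)).card ≤
      ∑ Z ∈ Zf.filter (fun Z => ¬ P Z), ∑ z with z ∈ Z, om fr S T z := by
    rw [mul_comm, ← smul_eq_mul, ← Finset.sum_const]
    apply Finset.sum_le_sum
    intro Z hZ
    rw [Finset.mem_filter, hZf] at hZ
    refine weight_ge hdeg' hbr hfr hfx hB hZ.1 ?_
    intro q hq
    exact hZ.2 ⟨q, hq⟩
  have hup : ∑ Z ∈ Zf.filter (fun Z => ¬ P Z), ∑ z with z ∈ Z, om fr S T z ≤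
      ∑ z : GW H t, (if z ∈ U then 0 else om fr S T z) := by
    have h1 : ∀ Z : Set (GW H t), ∑ z with z ∈ Z, om fr S T z =
        ∑ z : GW H t, (if z ∈ Z then om fr S T z else 0) := by
      intro Z
      rw [Finset.sum_filter]
    rw [Finset.sum_congr rfl (fun Z _ => h1 Z), Finset.sum_comm]
    apply Finset.sum_le_sum
    intro z _
    by_cases hz : ∃ Z ∈ Zf.filter (fun Z => ¬ P Z), z ∈ Z
    · obtain ⟨Z, hZ, hzZ⟩ := hz
      have hZo := (hZf Z).1 (Finset.mem_filter.1 hZ).1
      rw [if_neg (hZo.notMem hzZ)]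
      rw [Finset.sum_eq_single Z]
      · rw [if_pos hzZ]
      · intro Z' hZ' hne
        have hZo' := (hZf Z').1 (Finset.mem_filter.1 hZ').1
        rw [if_neg]
        intro h
        exact hne (hZo'.eq_of_mem hZo h hzZ)
      · intro h
        exact absurd hZ h
    · push Not at hz
      rw [Finset.sum_eq_zero]
      · exact Nat.zero_le _
      · intro Z hZ
        rw [if_neg (hz Z hZ)]
  omega

end Pool.Agent.H567R3.ZS
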