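import Mathlib

set_option autoImplicit false
set_option linter.deprecated false

namespace Pool.Agent.H567R3.ZS

open SimpleGraph

variable {V : Type}

/-- symmetric edge weights, zero off the edges -/
structure IsW (H : SimpleGraph V) (f : V → V → ℤ) : Prop where
  symm : ∀ a b, f a b = f b a
  supp : ∀ a b, ¬ H.Adj a b → f a b = 0

/-- gluing along components -/
theorem exists_glue {H : SimpleGraph V} (Q : V → (V → ℤ) → Prop)
    (h : ∀ v0, ∃ f, IsW H f ∧ ∀ w, H.Reachable v0 w → Q w (f w)) :
    ∃ f, IsW H f ∧ ∀ w, Q w (f w) := by
  classical
  choose g hg hQ using h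
  let r : V → V := fun v => (H.connectedComponentMk v).out
  have hr : ∀ v, H.Reachable (r v) v := fun v =>
    ConnectedComponent.exact (Quot.out_eq (H.connectedComponentMk v))
  refine ⟨fun a b => g (r a) a b, ⟨?_, ?_⟩, ?_⟩
  · intro a b
    by_cases hab : H.Adj a b
    · have h1 : r a = r b := by
        simp only [r]
        rw [ConnectedComponent.sound hab.reachable]
      try simp only
      rw [h1, (hg _).symm]
    · have h2 : ¬ H.Adj b a := fun h => hab h.symm
      try simp only
      rw [(hg _).supp _ _ hab, (hg _).supp _ _ h2]
  · intro a b hab
    exact (hg _).supp _ _ hab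
  · intro w
    exact hQ (r w) w (hr w)

theorem del_adj {H : SimpleGraph V} {u v a b : V} :
    (H.deleteEdges {s(u, v)}).Adj a b ↔ H.Adj a b ∧ s(a, b) ≠ s(u, v) := by
  simp [deleteEdges_adj]

theorem del_reach {H : SimpleGraph V} {u v : V} (huv : H.Adj u v) (a b : V) :
    H.Reachable a b ↔ ((H.deleteEdges {s(u, v)}).Reachable a b ∨
      ((H.deleteEdges {s(u, v)}).Reachable a u ∧ (H.deleteEdges {s(u, v)}).Reachable v b) ∨
      ((H.deleteEdges {s(u, v)}).Reachable a v ∧ (H.deleteEdges {s(u, v)}).Reachable u b)) := by
  have hle : H.deleteEdges {s(u, v)} ≤ H := deleteEdges_le _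
  constructor
  · rintro ⟨p⟩
    induction p with
    | nil => exact Or.inl (Reachable.refl _)
    | @cons a a' b h p ih =>
      by_cases he : s(a, a') = s(u, v)
      · rw [Sym2.eq_iff] at he
        rcases he with ⟨rfl, rfl⟩ | ⟨rfl, rfl⟩
        · rcases ih with h1 | ⟨h1, h2⟩ | ⟨h1, h2⟩
          · exact Or.inr (Or.inl ⟨Reachable.refl _, h1⟩)
          · exact Or.inr (Or.inl ⟨Reachable.refl _, h2⟩)
          · exact Or.inl h2
        · rcases ih with h1 | ⟨h1, h2⟩ | ⟨h1, h2⟩
          · exact Or.inr (Or.inr ⟨Reachable.refl _, h1⟩)
          · exact Or.inl h2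
          · exact Or.inr (Or.inr ⟨Reachable.refl _, h2⟩)
      · have h1 : (H.deleteEdges {s(u, v)}).Reachable a a' := (del_adj.2 ⟨h, he⟩).reachable
        rcases ih with h2 | ⟨h2, h3⟩ | ⟨h2, h3⟩
        · exact Or.inl (h1.trans h2)
        · exact Or.inr (Or.inl ⟨h1.trans h2, h3⟩)
        · exact Or.inr (Or.inr ⟨h1.trans h2, h3⟩)
  · rintro (h | ⟨h1, h2⟩ | ⟨h1, h2⟩)
    · exact h.mono hle
    · exact (h1.mono hle).trans (huv.reachable.trans (h2.mono hle))
    · exact (h1.mono hle).trans (huv.symm.reachable.trans (h2.mono hle))

theorem del_ncard [Finite V] {H : SimpleGraph V} {u v : V} (huv : H.Adj u v) :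
    (H.deleteEdges {s(u, v)}).edgeSet.ncard < H.edgeSet.ncard := by
  apply Set.ncard_lt_ncard _ (Set.toFinite _)
  rw [edgeSet_deleteEdges]
  refine ⟨Set.diff_subset, fun h => ?_⟩
  have h1 : s(u, v) ∈ H.edgeSet := huv
  exact (h h1).2 rfl

/-- weights on `H - e` are weights on `H` -/
theorem IsW.mono {H H' : SimpleGraph V} (hle : H ≤ H') {f : V → V → ℤ} (hf : IsW H f) :
    IsW H' f :=
  ⟨hf.symm, fun a b hab => hf.supp a b fun h => hab (hle h)⟩

/-- single edge weight -/
noncomputable def ew (u v : V) (s : ℤ) : V → V → ℤ := by
  classical
  exact fun a b => if s(a, b) = s(u, v) then s else 0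

theorem ew_isW {H : SimpleGraph V} {u v : V} (huv : H.Adj u v) (s : ℤ) : IsW H (ew u v s) := by
  classical
  refine ⟨fun a b => ?_, fun a b hab => ?_⟩
  · unfold ew
    rw [Sym2.eq_swap]
  · unfold ew
    rw [if_neg]
    intro h
    apply hab
    have : s(a, b) ∈ H.edgeSet := by rw [h]; exact huv
    exact this

theorem ew_sum [Fintype V] {u v : V} (huv : u ≠ v) (s : ℤ) (w : V) :
    (∑ b, ew u v s w b = s ∧ (w = u ∨ w = v)) ∨ (∑ b, ew u v s w b = 0 ∧ w ≠ u ∧ w ≠ v) := by
  classical
  by_cases hu : w = u
  · subst hu
    left
    refine ⟨?_, Or.inl rfl⟩
    rw [Finset.sum_eq_single v]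
    · simp [ew]
    · intro b _ hb
      unfold ew
      rw [if_neg]
      intro h
      rw [Sym2.eq_iff] at h
      rcases h with ⟨_, h⟩ | ⟨h, _⟩
      · exact hb h
      · exact huv h
    · simp
  · by_cases hv : w = v
    · subst hv
      left
      refine ⟨?_, Or.inr rfl⟩
      rw [Finset.sum_eq_single u]
      · simp [ew]
      · intro b _ hb
        unfold ew
        rw [if_neg]
        intro h
        rw [Sym2.eq_iff] at h
        rcases h with ⟨h, _⟩ | ⟨_, h⟩
        · exact huv h.symm
        · exact hb h
      · simp
    · right
      refine ⟨?_, hu, hv⟩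
      apply Finset.sum_eq_zero
      intro b _
      unfold ew
      rw [if_neg]
      intro h
      rw [Sym2.eq_iff] at h
      rcases h with ⟨h, _⟩ | ⟨h, _⟩
      · exact hu h
      · exact hv h

/-- the number of elements of `X` in the component of `v` -/
noncomputable def cX (H : SimpleGraph V) (X : Set V) (v : V) : ℕ :=
  {w | H.Reachable v w ∧ w ∈ X}.ncard

/-- **T-joins with alternating signs.** -/
theorem exists_tj [Fintype V] (n : ℕ) : ∀ (H : SimpleGraph V), H.edgeSet.ncard < n → ∀ X : Set V,
    (∀ v, Even (cX H X v)) →
    ∃ h : V → V → ℤ, IsW H h ∧ (∀ a b, |h a b| ≤ 1) ∧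
      ∀ v, (v ∉ X → ∑ w, h v w = 0) ∧ (v ∈ X → ∑ w, h v w = 1 ∨ ∑ w, h v w = -1) := by
  classical
  induction n with
  | zero => intro H hH; omega
  | succ n ih =>
    intro H hn X hX
    by_cases hE : ∃ u v, H.Adj u v
    · obtain ⟨u, v, huv⟩ := hE
      set H' := H.deleteEdges {s(u, v)} with hH'
      have hle : H' ≤ H := deleteEdges_le _
      have hlt := del_ncard huv
      rw [← hH'] at hlt
      by_cases hpar : ∀ w, Even (cX H' X w)
      · obtain ⟨h, h1, h2, h3⟩ := ih H' (by omega) X hpar
        exact ⟨h, h1.mono hle, h2, h3⟩
      · -- `e` is a bridge and both sides are odd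
        have hR := del_reach huv
        rw [← hH'] at hR
        have hnr : ¬ H'.Reachable u v := by
          intro hr
          apply hpar
          intro w
          have : cX H' X w = cX H X w := by
            unfold cX
            congr 1
            ext z
            simp only [Set.mem_setOf_eq]
            rw [hR]
            constructor
            · rintro ⟨h1, h2⟩; exact ⟨Or.inl h1, h2⟩
            · rintro ⟨h1 | ⟨h1, h3⟩ | ⟨h1, h3⟩, h2⟩
              · exact ⟨h1, h2⟩
              · exact ⟨h1.trans (hr.trans h3), h2⟩
              · exact ⟨h1.trans (hr.symm.trans h3), h2⟩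
          rw [this]
          exact hX w
        -- component sizes
        have hcomp : ∀ w z, H'.Reachable w z → cX H' X w = cX H' X z := by
          intro w z hwz
          unfold cX
          congr 1
          ext y
          simp only [Set.mem_setOf_eq]
          exact ⟨fun ⟨h1, h2⟩ => ⟨hwz.symm.trans h1, h2⟩, fun ⟨h1, h2⟩ => ⟨hwz.trans h1, h2⟩⟩
        have hoff : ∀ w, ¬ H'.Reachable w u → ¬ H'.Reachable w v → cX H' X w = cX H X w := by
          intro w h1 h2
          unfold cX
          congr 1
          ext z
          simp only [Set.mem_setOf_eq]
          rw [hR]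
          tauto
        have hsum : cX H X u = cX H' X u + cX H' X v := by
          unfold cX
          rw [← Set.ncard_union_eq]
          · congr 1
            ext z
            simp only [Set.mem_setOf_eq, Set.mem_union]
            rw [hR]
            constructor
            · rintro ⟨h1 | ⟨h1, h3⟩ | ⟨h1, h3⟩, h2⟩
              · exact Or.inl ⟨h1, h2⟩
              · exact Or.inr ⟨h3, h2⟩
              · exact absurd h1 hnr
            · rintro (⟨h1, h2⟩ | ⟨h1, h2⟩)
              · exact ⟨Or.inl h1, h2⟩
              · exact ⟨Or.inr (Or.inl ⟨Reachable.refl _, h1⟩), h2⟩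
          · rw [Set.disjoint_left]
            rintro z ⟨h1, _⟩ ⟨h2, _⟩
            exact hnr (h1.trans h2.symm)
        have hev := hX u
        rw [hsum] at hev
        have hodd : ¬ Even (cX H' X u) ∧ ¬ Even (cX H' X v) := by
          push Not at hpar
          obtain ⟨w, hw⟩ := hpar
          rw [Nat.even_add] at hev
          by_cases h1 : H'.Reachable w u
          · rw [hcomp w u h1] at hw
            tauto
          · by_cases h2 : H'.Reachable w v
            · rw [hcomp w v h2] at hw
              tauto
            · rw [hoff w h1 h2] at hw
              exact absurd (hX w) hw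
        set X' : Set V := symmDiff X {u, v} with hX'
        have hmem : ∀ w, w ∈ X' ↔ (w ∈ X ↔ ¬ (w = u ∨ w = v)) := by
          intro w
          rw [hX', Set.mem_symmDiff]
          simp only [Set.mem_insert_iff, Set.mem_singleton_iff]
          tauto
        have hflip : ∀ (y : V), (y ∈ X' ↔ y ∉ X) → (∀ w, H'.Reachable y w → w ≠ y → (w ∈ X' ↔ w ∈ X)) →
            ¬ Even (cX H' X y) → Even (cX H' X' y) := by
          intro y hy hw ho
          by_cases hyX : y ∈ X
          · have h1 : {w | H'.Reachable y w ∧ w ∈ X} = insert y {w | H'.Reachable y w ∧ w ∈ X'} := by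
              ext w
              simp only [Set.mem_setOf_eq, Set.mem_insert_iff]
              constructor
              · rintro ⟨h1, h2⟩
                by_cases hwy : w = y
                · exact Or.inl hwy
                · exact Or.inr ⟨h1, (hw w h1 hwy).2 h2⟩
              · rintro (rfl | ⟨h1, h2⟩)
                · exact ⟨Reachable.refl _, hyX⟩
                · refine ⟨h1, (hw w h1 ?_).1 h2⟩
                  rintro rfl
                  exact (hy.1 h2) hyX
            have h2 : cX H' X y = cX H' X' y + 1 := by
              unfold cX
              rw [h1, Set.ncard_insert_of_notMem]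
              rintro ⟨_, h3⟩
              exact (hy.1 h3) hyX
            rw [h2, Nat.even_add_one, not_not] at ho
            exact ho
          · have h1 : {w | H'.Reachable y w ∧ w ∈ X'} = insert y {w | H'.Reachable y w ∧ w ∈ X} := by
              ext w
              simp only [Set.mem_setOf_eq, Set.mem_insert_iff]
              constructor
              · rintro ⟨h1, h2⟩
                by_cases hwy : w = y
                · exact Or.inl hwy
                · exact Or.inr ⟨h1, (hw w h1 hwy).1 h2⟩
              · rintro (rfl | ⟨h1, h2⟩)
                · exact ⟨Reachable.refl _, hy.2 hyX⟩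
                · refine ⟨h1, (hw w h1 ?_).2 h2⟩
                  rintro rfl
                  exact hyX h2
            have h2 : cX H' X' y = cX H' X y + 1 := by
              unfold cX
              rw [h1, Set.ncard_insert_of_notMem]
              rintro ⟨_, h3⟩
              exact hyX h3
            rw [h2, Nat.even_add_one]
            exact ho
        have hcomp' : ∀ w z, H'.Reachable w z → cX H' X' w = cX H' X' z := by
          intro w z hwz
          unfold cX
          congr 1
          ext y
          simp only [Set.mem_setOf_eq]
          exact ⟨fun ⟨h1, h2⟩ => ⟨hwz.symm.trans h1, h2⟩, fun ⟨h1, h2⟩ => ⟨hwz.trans h1, h2⟩⟩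
        have hne : u ≠ v := huv.ne
        have hpar' : ∀ w, Even (cX H' X' w) := by
          intro w
          by_cases h1 : H'.Reachable w u
          · rw [hcomp' w u h1]
            apply hflip u _ _ hodd.1
            · rw [hmem]; tauto
            · intro z hz hzu
              have hzv : z ≠ v := by rintro rfl; exact hnr hz
              rw [hmem]; tauto
          · by_cases h2 : H'.Reachable w v
            · rw [hcomp' w v h2]
              apply hflip v _ _ hodd.2
              · rw [hmem]; tauto
              · intro z hz hzu
                have hzv : z ≠ u := by rintro rfl; exact hnr hz.symm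
                rw [hmem]; tauto
            · have h3 : cX H' X' w = cX H' X w := by
                unfold cX
                congr 1
                ext z
                simp only [Set.mem_setOf_eq]
                constructor
                · rintro ⟨h4, h5⟩
                  refine ⟨h4, ?_⟩
                  have hzu : z ≠ u := by rintro rfl; exact h1 h4
                  have hzv : z ≠ v := by rintro rfl; exact h2 h4
                  rw [hmem] at h5
                  tauto
                · rintro ⟨h4, h5⟩
                  refine ⟨h4, ?_⟩
                  have hzu : z ≠ u := by rintro rfl; exact h1 h4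
                  have hzv : z ≠ v := by rintro rfl; exact h2 h4
                  rw [hmem]
                  tauto
              rw [h3, hoff w h1 h2]
              exact hX w
        obtain ⟨h, h1, h2, h3⟩ := ih H' (by omega) X' hpar'
        -- adjust the sign on the `v` side
        have key : ∀ e : ℤ, (e = 1 ∨ e = -1) → ∃ h : V → V → ℤ, IsW H' h ∧ (∀ a b, |h a b| ≤ 1) ∧
            (∀ v, (v ∉ X' → ∑ w, h v w = 0) ∧ (v ∈ X' → ∑ w, h v w = 1 ∨ ∑ w, h v w = -1)) ∧
            (v ∈ X' → ∑ w, h v w = e) ∧ (u ∈ X' → ∑ w, h u w = e) := by
          intro e he
          -- sign functions constant on components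
          obtain ⟨sg, hsg1, hsg2, hsg3, hsg4⟩ : ∃ sg : V → ℤ, (∀ a, sg a = 1 ∨ sg a = -1) ∧
              (∀ a b, H'.Adj a b → sg a = sg b) ∧
              (v ∈ X' → sg v * ∑ w, h v w = e) ∧ (u ∈ X' → sg u * ∑ w, h u w = e) := by
            refine ⟨fun a => if H'.Reachable v a then (if ∑ w, h v w = e then 1 else -1) else
              (if ∑ w, h u w = e then 1 else -1), ?_, ?_, ?_, ?_⟩
            · intro a
              dsimp only
              split_ifs <;> simp
            · intro a b hab
              dsimp only
              have h5 : H'.Reachable v a ↔ H'.Reachable v b :=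
                ⟨fun h => h.trans hab.reachable, fun h => h.trans hab.symm.reachable⟩
              simp only [h5]
            · intro hv
              have h5 := (h3 v).2 hv
              dsimp only
              rw [if_pos (Reachable.refl _)]
              split_ifs with h6
              · rw [one_mul]; exact h6
              · rcases he with rfl | rfl <;> rcases h5 with h5 | h5 <;> rw [h5] at h6 ⊢ <;> simp at h6 ⊢
            · intro hu
              have h5 := (h3 u).2 hu
              dsimp only
              rw [if_neg (fun h => hnr h.symm)]
              split_ifs with h6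
              · rw [one_mul]; exact h6
              · rcases he with rfl | rfl <;> rcases h5 with h5 | h5 <;> rw [h5] at h6 ⊢ <;> simp at h6 ⊢
          refine ⟨fun a b => sg a * h a b, ⟨?_, ?_⟩, ?_, ?_, ?_, ?_⟩
          · intro a b
            by_cases hab : H'.Adj a b
            · try simp only
              rw [hsg2 a b hab, h1.symm]
            · have hba : ¬ H'.Adj b a := fun h => hab h.symm
              try simp only
              rw [h1.supp a b hab, h1.supp b a hba]
              simp
          · intro a b hab
            try simp only
            rw [h1.supp a b hab]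
            simp
          · intro a b
            try simp only
            rw [abs_mul]
            rcases hsg1 a with h5 | h5 <;> rw [h5] <;> simpa using h2 a b
          · intro z
            try simp only
            rw [← Finset.mul_sum]
            refine ⟨fun hz => ?_, fun hz => ?_⟩
            · rw [(h3 z).1 hz]; simp
            · rcases hsg1 z with h5 | h5 <;> rcases (h3 z).2 hz with h6 | h6 <;> rw [h5, h6] <;> simp
          · intro hv
            try simp only
            rw [← Finset.mul_sum]
            exact hsg3 hv
          · intro hu
            try simp only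
            rw [← Finset.mul_sum]
            exact hsg4 hu
        obtain ⟨h, h1, h2, h3, h4, h5⟩ := key (-1) (Or.inr rfl)
        refine ⟨fun a b => h a b + ew u v 1 a b, ⟨?_, ?_⟩, ?_, ?_⟩
        · intro a b
          try simp only
          rw [h1.symm, (ew_isW huv 1).symm]
        · intro a b hab
          try simp only
          rw [h1.supp a b (fun h => hab (hle h)), (ew_isW huv 1).supp a b hab]
          simp
        · intro a b
          try simp only
          by_cases hab : s(a, b) = s(u, v)
          · have h6 : ¬ H'.Adj a b := by
              rw [hH', del_adj]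
              tauto
            rw [h1.supp a b h6]
            unfold ew
            rw [if_pos hab]
            simp
          · unfold ew
            rw [if_neg hab, add_zero]
            exact h2 a b
        · intro w
          try simp only
          rw [Finset.sum_add_distrib]
          rcases ew_sum hne 1 w with ⟨h6, h7⟩ | ⟨h6, h7, h8⟩
          · rw [h6]
            have h8 := hmem w
            refine ⟨fun hw => ?_, fun hw => ?_⟩
            · have h9 : w ∈ X' := by rw [h8]; tauto
              rcases h7 with rfl | rfl
              · rw [h5 h9]; simp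
              · rw [h4 h9]; simp
            · have h9 : w ∉ X' := by rw [h8]; tauto
              rw [(h3 w).1 h9]
              simp
          · rw [h6, add_zero]
            have h9 : w ∈ X' ↔ w ∈ X := by
              rw [hmem]; tauto
            rw [← h9]
            exact h3 w
    · -- no edges
      push Not at hE
      refine ⟨fun _ _ => 0, ⟨fun _ _ => rfl, fun _ _ _ => rfl⟩, by simp, fun v => ⟨by simp, ?_⟩⟩
      intro hv
      exfalso
      have h1 : {w | H.Reachable v w ∧ w ∈ X} = {v} := by
        ext w
        simp only [Set.mem_setOf_eq, Set.mem_singleton_iff]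
        constructor
        · rintro ⟨⟨p⟩, h2⟩
          cases p with
          | nil => rfl
          | cons h p => exact absurd h (hE _ _)
        · rintro rfl
          exact ⟨Reachable.refl _, hv⟩
      have h2 := hX v
      unfold cX at h2
      rw [h1, Set.ncard_singleton] at h2
      exact absurd h2 (by decide)

end Pool.Agent.H567R3.ZS
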